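import Mathlib
import Pool.Agent.H302R2.SymD

/-!
# Heilbronn functions on alternating groups: the translations of blocks
-/

set_option autoImplicit false
set_option linter.unusedSectionVars false

namespace Pool.Agent.U93

open Equiv Equiv.Perm Pool.Agent.H302R2

section sign

variable {F : Type*} [Field F] [Fintype F] [DecidableEq F] {m : ℕ}

lemma sign_mono' (u : Fin m → Fˣ) (σ : Perm (Fin m)) :
    Perm.sign (mono u σ)
      = Perm.sign σ ^ Fintype.card F * ∏ i, Perm.sign (Units.mulLeft (u i)) := by
  have h1 : mono u σ = Equiv.prodCongrLeft (fun _ : F => σ) *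
      Equiv.prodCongrRight (fun i => Units.mulLeft (u i)) := by
    ext x <;> simp [mono]
  rw [h1, Perm.sign_mul, sign_prodCongrLeft, sign_prodCongrRight, Finset.prod_const,
    Finset.card_univ]

lemma mulLeft_pow (g : Fˣ) (k : ℕ) (x : F) : ((Units.mulLeft g) ^ k) x = (g : F) ^ k * x := by
  induction k generalizing x with
  | zero => simp
  | succ k ih => rw [pow_succ', Perm.mul_apply, ih, Units.mulLeft_apply]; ring

lemma exists_odd_mul (hF : Odd (Fintype.card F)) (hF3 : 3 ≤ Fintype.card F) :
    ∃ u : Fˣ, Perm.sign (Units.mulLeft u) = -1 := by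
  classical
  obtain ⟨g, hg⟩ := IsCyclic.exists_generator (α := Fˣ)
  have hg1 : g ≠ 1 := by
    rintro rfl
    have h1 : ∀ x : Fˣ, x = 1 := by
      intro x
      have := hg x
      rw [Subgroup.zpowers_one_eq_bot, Subgroup.mem_bot] at this
      exact this
    have h2 : Fintype.card Fˣ ≤ 1 := Fintype.card_le_one_iff.mpr fun a b => by rw [h1 a, h1 b]
    rw [Fintype.card_units] at h2
    omega
  have hfix : ∀ x : F, Units.mulLeft g x = x ↔ x = 0 := by
    intro x
    rw [Units.mulLeft_apply]
    constructor
    · intro h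
      by_contra hx
      apply hg1
      apply Units.ext
      refine mul_right_cancel₀ hx ?_
      rw [Units.val_one, one_mul]
      exact h
    · rintro rfl; simp
  have hcyc : (Units.mulLeft g : Perm F).IsCycle := by
    refine ⟨1, fun h => one_ne_zero ((hfix 1).mp h), fun y hy => ?_⟩
    have hy0 : y ≠ 0 := fun h => hy ((hfix y).mpr h)
    have h1 := hg (Units.mk0 y hy0)
    rw [← mem_powers_iff_mem_zpowers] at h1
    obtain ⟨k, hk⟩ := h1
    refine ⟨k, ?_⟩
    rw [zpow_natCast, mulLeft_pow, mul_one, ← Units.val_pow_eq_pow_val]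
    have h2 : g ^ k = Units.mk0 y hy0 := hk
    rw [h2]; rfl
  have hsupp : (Units.mulLeft g : Perm F).support = Finset.univ.erase 0 := by
    ext x
    rw [mem_support, Finset.mem_erase, ne_eq, hfix]
    simp
  refine ⟨g, ?_⟩
  rw [hcyc.sign, hsupp, Finset.card_erase_of_mem (Finset.mem_univ _), Finset.card_univ]
  have h3 : Even (Fintype.card F - 1) := by
    obtain ⟨k, hk⟩ := hF
    exact ⟨k, by omega⟩
  rw [h3.neg_one_pow]

lemma mono_mul (u u' : Fin m → Fˣ) (σ σ' : Perm (Fin m)) :
    mono u σ * mono u' σ' = mono (fun i => u (σ' i) * u' i) (σ * σ') := by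
  ext ⟨i, x⟩
  · simp [mono]
  · simp [mono, mul_assoc]

lemma exists_even_mono (hm : 2 ≤ m) (hF3 : 3 ≤ Fintype.card F) {y z : Fin m → F}
    (h : wt y = wt z) :
    ∃ (u : Fin m → Fˣ) (σ : Perm (Fin m)), (∀ i, z i = (u i : F) * y (σ i)) ∧
      Perm.sign (mono u σ) = 1 := by
  classical
  obtain ⟨u, σ, hu⟩ := exists_monomial h
  rcases Nat.even_or_odd (Fintype.card F) with he | ho
  · exact ⟨u, σ, hu, sign_mono he u σ⟩
  rcases Int.units_eq_one_or (Perm.sign (mono u σ)) with hs | hs
  · exact ⟨u, σ, hu, hs⟩
  obtain ⟨u', σ', hu', hs'⟩ : ∃ (u' : Fin m → Fˣ) (σ' : Perm (Fin m)),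
      (∀ i, z i = (u' i : F) * z (σ' i)) ∧ Perm.sign (mono u' σ') = -1 := by
    by_cases h0 : ∃ i, z i = 0
    · obtain ⟨i0, hi0⟩ := h0
      obtain ⟨g, hg⟩ := exists_odd_mul ho hF3
      refine ⟨Pi.mulSingle i0 g, 1, fun i => ?_, ?_⟩
      · by_cases hi : i = i0
        · subst hi; simp [hi0]
        · simp [Pi.mulSingle_eq_of_ne hi]
      · rw [sign_mono', Perm.sign_one, one_pow, one_mul,
          Finset.prod_eq_single i0 (fun i _ hi => ?_) (fun h => absurd (Finset.mem_univ _) h)]
        · rw [Pi.mulSingle_eq_same, hg]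
        · rw [Pi.mulSingle_eq_of_ne hi]
          have : (Units.mulLeft (1 : Fˣ) : Perm F) = 1 := by ext x; simp
          rw [this, Perm.sign_one]
    · push Not at h0
      have : NeZero m := ⟨by omega⟩
      obtain ⟨i, j, hij⟩ : ∃ i j : Fin m, i ≠ j :=
        ⟨⟨0, by omega⟩, ⟨1, by omega⟩, by simp⟩
      let t : Fˣ := Units.mk0 (z i / z j) (div_ne_zero (h0 i) (h0 j))
      let u' : Fin m → Fˣ := fun k => if k = i then t else if k = j then t⁻¹ else 1
      refine ⟨u', swap i j, fun k => ?_, ?_⟩
      · by_cases hki : k = i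
        · subst hki
          simp only [u', if_true, swap_apply_left]
          rw [show (t : F) = z k / z j from rfl, div_mul_cancel₀ _ (h0 j)]
        · by_cases hkj : k = j
          · subst hkj
            simp only [u', if_neg hki, if_true, swap_apply_right, Units.val_inv_eq_inv_val]
            rw [show (t : F) = z i / z k from rfl, inv_div, div_mul_cancel₀ _ (h0 i)]
          · simp only [u', if_neg hki, if_neg hkj, Units.val_one, one_mul,
              swap_apply_of_ne_of_ne hki hkj]
      · rw [sign_mono', sign_swap hij, ho.neg_one_pow]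
        have h1 : ∏ k, Perm.sign (Units.mulLeft (u' k))
            = ∏ k ∈ ({i, j} : Finset (Fin m)), Perm.sign (Units.mulLeft (u' k)) := by
          symm
          apply Finset.prod_subset (Finset.subset_univ _)
          intro k _ hk
          simp only [Finset.mem_insert, Finset.mem_singleton, not_or] at hk
          simp only [u', if_neg hk.1, if_neg hk.2]
          have : (Units.mulLeft (1 : Fˣ) : Perm F) = 1 := by ext x; simp
          rw [this, Perm.sign_one]
        rw [h1, Finset.prod_pair hij]
        simp only [u', if_true, if_neg hij.symm]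
        have h2 : (Units.mulLeft t⁻¹ : Perm F) = (Units.mulLeft t)⁻¹ := by
          ext x
          simp [Equiv.Perm.inv_def, Units.mulLeft_symm]
        rw [h2, Perm.sign_inv, Int.units_mul_self, mul_one]
  refine ⟨fun i => u' i * u (σ' i), σ * σ', fun i => ?_, ?_⟩
  · rw [hu' i, hu (σ' i), Units.val_mul, Perm.mul_apply, mul_assoc]
  · have h1 : mono (fun i => u' i * u (σ' i)) (σ * σ') = mono u σ * mono u' σ' := by
      rw [mono_mul]
      congr 1
      ext i
      rw [mul_comm]
    rw [h1, Perm.sign_mul, hs, hs']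
    rfl

lemma sign_trans' (hF : 3 ≤ Fintype.card F) (a : Multiplicative (Fin m → F)) :
    Perm.sign (trans m F a) = 1 := by
  rcases Nat.even_or_odd (Fintype.card F) with he | ho
  · exact sign_trans (by
      obtain ⟨k, hk⟩ := he
      omega) a
  · refine sign_odd_pow ho ?_
    rw [← map_pow]
    have : a ^ Fintype.card F = 1 := by
      change Multiplicative.ofAdd (Fintype.card F • Multiplicative.toAdd a) = 1
      have h1 : Fintype.card F • Multiplicative.toAdd a = 0 := by
        ext i
        rw [Pi.smul_apply, Pi.zero_apply, nsmul_eq_mul, FiniteField.cast_card_eq_zero, zero_mul]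
      rw [h1]; rfl
    rw [this, map_one]

end sign

section count

variable {F : Type*} [Field F] [Fintype F] [DecidableEq F] {m : ℕ}

lemma card_wt_ge_two (hF : 3 ≤ Fintype.card F) {j : ℕ} (hj : 2 ≤ j) (hjm : j ≤ m) :
    (Fintype.card F - 1) ^ 2 * (m - 1)
      ≤ (Finset.univ.filter fun z : Fin m → F => wt z = j).card := by
  obtain ⟨j, rfl⟩ := Nat.exists_eq_add_of_le' hj
  obtain ⟨m, rfl⟩ := Nat.exists_eq_add_of_le' (hj.trans hjm)
  have h1 := card_wt_ge (F := F) (m := m + 1) hF (j := j + 1) (by omega) (by omega)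
  rw [card_wt_eq] at h1 ⊢
  have h2 : (m + 1).choose (j + 1) ≤ (m + 2).choose (j + 2) := by
    rw [Nat.choose_succ_succ (m + 1) (j + 1)]
    exact Nat.le_add_right _ _
  calc (Fintype.card F - 1) ^ 2 * (m + 2 - 1)
      = (Fintype.card F - 1) * ((Fintype.card F - 1) * (m + 1)) := by
        rw [Nat.add_sub_assoc (by norm_num)]; ring
    _ ≤ (Fintype.card F - 1) * ((m + 1).choose (j + 1) * (Fintype.card F - 1) ^ (j + 1)) :=
        Nat.mul_le_mul_left _ h1
    _ ≤ (Fintype.card F - 1) * ((m + 2).choose (j + 2) * (Fintype.card F - 1) ^ (j + 1)) :=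
        Nat.mul_le_mul_left _ (Nat.mul_le_mul_right _ h2)
    _ = (m + 2).choose (j + 2) * (Fintype.card F - 1) ^ (j + 2) := by ring

end count

section main

variable {α : Type*} [Fintype α] [DecidableEq α] {θ : alternatingGroup α → ℂ}
variable {F : Type} [Field F] [Fintype F] [DecidableEq F] {m : ℕ}

/-- the translations of the blocks, as a homomorphism to the alternating group -/
noncomputable def bh (hF : 3 ≤ Fintype.card F) (f : Fin m × F ↪ α) :
    Multiplicative (Fin m → F) →* alternatingGroup α :=
  ((viaEmbeddingHom f).comp (trans m F)).codRestrict (alternatingGroup α) (fun a => by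
    rw [mem_alternatingGroup, MonoidHom.comp_apply, viaEmb_sign, sign_trans' hF])

lemma bh_mono (hθ : IsHeilbronn θ) (hF : 3 ≤ Fintype.card F)
    (f : Fin m × F ↪ α) (u : Fin m → Fˣ) (σ : Perm (Fin m)) (hs : Perm.sign (mono u σ) = 1)
    (a : Fin m → F) :
    θ (bh hF f (Multiplicative.ofAdd (fun i => ((u i)⁻¹ : Fˣ) * a (σ i))))
      = θ (bh hF f (Multiplicative.ofAdd a)) := by
  have h1 : viaEmbeddingHom f (mono u σ) ∈ alternatingGroup α := by
    rw [mem_alternatingGroup, viaEmb_sign, hs]
  have h2 := hθ.conj (bh hF f (Multiplicative.ofAdd (fun i => ((u i)⁻¹ : Fˣ) * a (σ i))))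
    ⟨_, h1⟩
  rw [← h2]
  congr 1
  apply Subtype.ext
  change viaEmbeddingHom f (mono u σ) * viaEmbeddingHom f (trans m F _) *
    (viaEmbeddingHom f (mono u σ))⁻¹ = viaEmbeddingHom f (trans m F _)
  rw [← map_inv, ← map_mul, ← map_mul, mono_conj]

/-- The restriction of a Heilbronn function to the translations of the blocks. -/
theorem block_decomp (hθ : IsHeilbronn θ) (hF : 3 ≤ Fintype.card F) (hm : 2 ≤ m)
    (f : Fin m × F ↪ α) {r : ℕ} (hr : θ 1 = r) :
    ∃ n : (Fin m → F) → ℕ, (∀ y z, wt y = wt z → n y = n z) ∧ ∑ y, n y = r ∧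
      ∀ a : Fin m → F, θ (bh hF f (Multiplicative.ofAdd a))
        = ∑ y, (n y : ℂ) * AddChar.FiniteField.primitiveChar_to_Complex F (∑ i, y i * a i) := by
  classical
  set t : (Fin m → F) → ℂ := fun a => θ (bh hF f (Multiplicative.ofAdd a)) with ht
  set e : AddChar F ℂ := AddChar.FiniteField.primitiveChar_to_Complex F with he
  have heprim : e.IsPrimitive := AddChar.FiniteField.primitiveChar_to_Complex_isPrimitive F
  let χ : (Fin m → F) → Multiplicative (Fin m → F) →* ℂˣ := fun y =>
    MonoidHom.toHomUnits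
      { toFun := fun a => e (∑ i, y i * Multiplicative.toAdd a i)
        map_one' := by simp
        map_mul' := fun a b => by
          rw [← AddChar.map_add_eq_mul, ← Finset.sum_add_distrib]
          congr 1
          refine Finset.sum_congr rfl fun i _ => ?_
          rw [toAdd_mul, Pi.add_apply, mul_add] }
  have hχ : ∀ y a, ((χ y (Multiplicative.ofAdd a) : ℂˣ) : ℂ) = e (∑ i, y i * a i) :=
    fun y a => rfl
  have hm' := fun y => hθ.mult_hom (bh hF f) (χ y)
  choose n hn using hm'
  have hcardV : (Nat.card (Multiplicative (Fin m → F)) : ℂ) = (Fintype.card F : ℂ) ^ m := by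
    rw [Nat.card_eq_fintype_card, Fintype.card_multiplicative, Fintype.card_fun, Fintype.card_fin]
    push_cast; rfl
  have hn' : ∀ y, ∑ a : Fin m → F, t a * e (-∑ i, y i * a i) = n y * (Fintype.card F : ℂ) ^ m := by
    intro y
    rw [← hcardV, ← hn y, ← Multiplicative.ofAdd.sum_comp]
    refine Finset.sum_congr rfl fun a _ => ?_
    rw [Units.val_inv_eq_inv_val, hχ, AddChar.map_neg_eq_inv]
  have hq : ((Fintype.card F : ℂ) ^ m) ≠ 0 := pow_ne_zero _ (by
    exact_mod_cast Fintype.card_ne_zero)
  -- invariance of n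
  have hinv : ∀ y z : Fin m → F, wt y = wt z → n y = n z := by
    intro y z hyz
    obtain ⟨u, σ, huσ, hs⟩ := exists_even_mono hm hF hyz
    have h1 : ∑ a : Fin m → F, t a * e (-∑ i, y i * a i)
        = ∑ a : Fin m → F, t a * e (-∑ i, z i * a i) := by
      let T : (Fin m → F) ≃ (Fin m → F) :=
        { toFun := fun a i => ((u i)⁻¹ : Fˣ) * a (σ i)
          invFun := fun a i => (u (σ⁻¹ i) : F) * a (σ⁻¹ i)
          left_inv := fun a => by
            ext i
            simp only [perm_mul_inv_apply, Units.mul_inv_cancel_left]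
          right_inv := fun a => by
            ext i
            simp only [perm_inv_mul_apply, Units.inv_mul_cancel_left] }
      rw [← T.sum_comp (fun a => t a * e (-∑ i, z i * a i))]
      refine Finset.sum_congr rfl fun a _ => ?_
      have h2 : t (T a) = t a := bh_mono hθ hF f u σ hs a
      have h3 : ∑ i, z i * (T a) i = ∑ i, y i * a i := by
        rw [← Equiv.sum_comp σ (fun i => y i * a i)]
        refine Finset.sum_congr rfl fun i _ => ?_
        change z i * (((u i)⁻¹ : Fˣ) * a (σ i)) = _
        rw [huσ i]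
        have : (u i : F) * (((u i)⁻¹ : Fˣ) : F) = 1 := Units.mul_inv _
        calc (u i : F) * y (σ i) * ((((u i)⁻¹ : Fˣ) : F) * a (σ i))
            = ((u i : F) * (((u i)⁻¹ : Fˣ) : F)) * (y (σ i) * a (σ i)) := by ring
          _ = y (σ i) * a (σ i) := by rw [this, one_mul]
      rw [h2, h3]
    rw [hn', hn'] at h1
    exact_mod_cast mul_right_cancel₀ hq h1
  -- orthogonality
  have horth : ∀ a : Fin m → F, ∑ y : Fin m → F, e (∑ i, y i * a i)
      = if a = 0 then (Fintype.card F : ℂ) ^ m else 0 := by
    intro a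
    have h3 : ∀ y : Fin m → F, e (∑ i, y i * a i) = ∏ i, e (y i * a i) := by
      intro y
      rw [addChar_sum]
    rw [Finset.sum_congr rfl (fun y _ => h3 y)]
    have h4 := Finset.prod_univ_sum (fun _ : Fin m => (Finset.univ : Finset F))
      (fun i x => e (x * a i))
    rw [Fintype.piFinset_univ] at h4
    rw [← h4]
    by_cases ha : a = 0
    · subst ha
      simp
    · rw [if_neg ha]
      obtain ⟨i, hi⟩ := Function.ne_iff.mp ha
      have h5 : ∑ x : F, e (x * a i) = 0 := by
        rw [AddChar.sum_mulShift _ heprim, if_neg (by simpa using hi)]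
        simp
      rw [Finset.prod_eq_zero (Finset.mem_univ i) h5]
  have hdec : ∀ a : Fin m → F, t a = ∑ y, (n y : ℂ) * e (∑ i, y i * a i) := by
    intro a
    apply mul_right_cancel₀ hq
    rw [Finset.sum_mul]
    have h1 : ∀ y : Fin m → F, (n y : ℂ) * e (∑ i, y i * a i) * (Fintype.card F : ℂ) ^ m
        = ∑ b : Fin m → F, t b * e (∑ i, y i * (a - b) i) := by
      intro y
      rw [mul_right_comm, ← hn' y, Finset.sum_mul]
      refine Finset.sum_congr rfl fun b _ => ?_
      rw [mul_assoc, ← AddChar.map_add_eq_mul]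
      congr 2
      rw [neg_add_eq_sub, ← Finset.sum_sub_distrib]
      refine Finset.sum_congr rfl fun i _ => ?_
      rw [Pi.sub_apply, mul_sub]
    rw [Finset.sum_congr rfl (fun y _ => h1 y), Finset.sum_comm]
    have h2 : ∀ b : Fin m → F, ∑ y : Fin m → F, t b * e (∑ i, y i * (a - b) i)
        = if b = a then t a * (Fintype.card F : ℂ) ^ m else 0 := by
      intro b
      rw [← Finset.mul_sum, horth]
      by_cases hb : b = a
      · subst hb; simp
      · rw [if_neg (fun h => hb (sub_eq_zero.mp h).symm), if_neg hb, mul_zero]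
    rw [Finset.sum_congr rfl (fun b _ => h2 b), Finset.sum_ite_eq' Finset.univ a]
    simp
  refine ⟨n, hinv, ?_, hdec⟩
  have h1 := hdec 0
  have h2 : t 0 = r := by
    rw [← hr, ht]
    simp only [ofAdd_zero, map_one]
  rw [h2] at h1
  have h3 : (r : ℂ) = ((∑ y, n y : ℕ) : ℂ) := by
    rw [h1]
    push_cast
    refine Finset.sum_congr rfl fun y _ => ?_
    simp
  exact_mod_cast h3.symm

/-- the sum of the characters of weight one -/
lemma sum_wt_one (a : Fin m → F) :
    ∑ y ∈ Finset.univ.filter (fun y : Fin m → F => wt y = 1),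
      AddChar.FiniteField.primitiveChar_to_Complex F (∑ i, y i * a i)
      = (Fintype.card F : ℂ) * (m - wt a : ℂ) - m := by
  classical
  set e : AddChar F ℂ := AddChar.FiniteField.primitiveChar_to_Complex F with he
  have heprim : e.IsPrimitive := AddChar.FiniteField.primitiveChar_to_Complex_isPrimitive F
  have h1 : ∑ y ∈ Finset.univ.filter (fun y : Fin m → F => wt y = 1), e (∑ i, y i * a i)
      = ∑ p ∈ (Finset.univ : Finset (Fin m)) ×ˢ (Finset.univ.erase (0 : F)), e (p.2 * a p.1) := by
    symm
    refine Finset.sum_bij (fun p _ => Pi.single p.1 p.2) ?_ ?_ ?_ ?_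
    · rintro ⟨i, x⟩ hp
      rw [Finset.mem_product, Finset.mem_erase] at hp
      rw [Finset.mem_filter]
      refine ⟨Finset.mem_univ _, ?_⟩
      rw [wt, Finset.card_eq_one]
      refine ⟨i, ?_⟩
      ext j
      simp only [Finset.mem_filter, Finset.mem_univ, true_and, Finset.mem_singleton]
      constructor
      · intro h
        by_contra hj
        exact h (Pi.single_eq_of_ne hj _)
      · rintro rfl
        rw [Pi.single_eq_same]; exact hp.2.1
    · rintro ⟨i, x⟩ hp ⟨j, y⟩ hq h
      rw [Finset.mem_product, Finset.mem_erase] at hp hq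
      simp only at h hp hq
      have hij : i = j := by
        by_contra hij
        have h2 := congrFun h i
        rw [Pi.single_eq_same, Pi.single_eq_of_ne hij] at h2
        exact hp.2.1 h2
      subst hij
      have h2 := congrFun h i
      rw [Pi.single_eq_same, Pi.single_eq_same] at h2
      rw [h2]
    · intro y hy
      rw [Finset.mem_filter, wt, Finset.card_eq_one] at hy
      obtain ⟨-, i, hi⟩ := hy
      have hyi : ∀ j, y j ≠ 0 ↔ j = i := by
        intro j
        have := Finset.ext_iff.mp hi j
        simpa using this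
      refine ⟨(i, y i), ?_, ?_⟩
      · rw [Finset.mem_product, Finset.mem_erase]
        exact ⟨Finset.mem_univ _, (hyi i).mpr rfl, Finset.mem_univ _⟩
      · ext j
        by_cases hj : j = i
        · subst hj; simp
        · simp only [Pi.single_eq_of_ne hj]
          by_contra h
          exact hj ((hyi j).mp (fun h' => h h'.symm))
    · rintro ⟨i, x⟩ _
      congr 1
      rw [Finset.sum_eq_single i (fun j _ hj => by rw [Pi.single_eq_of_ne hj, zero_mul])
        (fun h => absurd (Finset.mem_univ _) h), Pi.single_eq_same]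
  rw [h1, Finset.sum_product]
  have h2 : ∀ i, ∑ x ∈ Finset.univ.erase (0 : F), e (x * a i)
      = (if a i = 0 then (Fintype.card F : ℂ) else 0) - 1 := by
    intro i
    have h5 := Finset.add_sum_erase Finset.univ (fun x => e (x * a i)) (Finset.mem_univ (0 : F))
    rw [zero_mul, AddChar.map_zero_eq_one, AddChar.sum_mulShift _ heprim] at h5
    rw [eq_sub_iff_add_eq, add_comm, h5]
    simp
  rw [Finset.sum_congr rfl (fun i _ => h2 i), Finset.sum_sub_distrib, ← Finset.sum_filter,
    Finset.sum_const, Finset.sum_const, Finset.card_univ, Fintype.card_fin, nsmul_eq_mul,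
    nsmul_eq_mul, mul_one]
  have h3 : ((Finset.univ.filter fun i => a i = 0).card : ℂ) = m - wt a := by
    have h4 := Finset.card_filter_add_card_filter_not (s := (Finset.univ : Finset (Fin m)))
      (fun i => a i = 0)
    rw [Finset.card_univ, Fintype.card_fin] at h4
    rw [eq_sub_iff_add_eq]
    exact_mod_cast h4
  rw [h3]
  ring

/-- **Dichotomy.** -/
theorem block_dich (hθ : IsHeilbronn θ) (hF : 3 ≤ Fintype.card F) (hm : 2 ≤ m)
    (f : Fin m × F ↪ α) {r : ℕ} (hr : θ 1 = r)
    (h1 : r < 2 * ((Fintype.card F - 1) * m)) (h2 : r < (Fintype.card F - 1) ^ 2 * (m - 1)) :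
    (∀ a, θ (bh hF f (Multiplicative.ofAdd a)) = θ 1) ∨
    ∀ a, θ (bh hF f (Multiplicative.ofAdd a)) = r - (Fintype.card F : ℂ) * wt a := by
  classical
  obtain ⟨n, hinv, hsum, hdec⟩ := block_decomp hθ hF hm f hr
  have hbig : ∀ y : Fin m → F, 2 ≤ wt y → n y = 0 := by
    intro y hy
    by_contra hcon
    have hwtm : wt y ≤ m := by
      rw [wt]
      exact (Finset.card_filter_le _ _).trans (by simp)
    have h3 := card_wt_ge_two (F := F) hF hy hwtm
    have h4 : (Finset.univ.filter fun z : Fin m → F => wt z = wt y).card ≤ ∑ z, n z := by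
      calc (Finset.univ.filter fun z : Fin m → F => wt z = wt y).card
          = ∑ z ∈ Finset.univ.filter (fun z : Fin m → F => wt z = wt y), 1 := by simp
        _ ≤ ∑ z ∈ Finset.univ.filter (fun z : Fin m → F => wt z = wt y), n z := by
            refine Finset.sum_le_sum fun z hz => ?_
            have := hinv y z (Finset.mem_filter.mp hz).2.symm
            omega
        _ ≤ ∑ z, n z := Finset.sum_le_sum_of_subset (Finset.filter_subset _ _)
    omega
  have hm0 : 0 < m := by omega
  let y1 : Fin m → F := Pi.single ⟨0, hm0⟩ 1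
  have hy1 : wt y1 = 1 := by
    rw [wt, Finset.card_eq_one]
    refine ⟨⟨0, hm0⟩, ?_⟩
    ext j
    simp only [Finset.mem_filter, Finset.mem_univ, true_and, Finset.mem_singleton, y1]
    constructor
    · intro h
      by_contra hj
      exact h (Pi.single_eq_of_ne hj _)
    · rintro rfl
      rw [Pi.single_eq_same]; exact one_ne_zero
  have hcard1 : (Finset.univ.filter fun z : Fin m → F => wt z = 1).card
      = (Fintype.card F - 1) * m := by
    rw [card_wt_eq, Nat.choose_one_right, pow_one, mul_comm]
  have hn1 : n y1 * ((Fintype.card F - 1) * m) ≤ r := by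
    rw [← hcard1, ← hsum]
    calc n y1 * (Finset.univ.filter fun z : Fin m → F => wt z = 1).card
        = ∑ z ∈ Finset.univ.filter (fun z : Fin m → F => wt z = 1), n y1 := by
          rw [Finset.sum_const, smul_eq_mul, mul_comm]
      _ = ∑ z ∈ Finset.univ.filter (fun z : Fin m → F => wt z = 1), n z := by
          refine Finset.sum_congr rfl fun z hz => ?_
          exact hinv _ _ (hy1.trans (Finset.mem_filter.mp hz).2.symm)
      _ ≤ ∑ z, n z := Finset.sum_le_sum_of_subset (Finset.filter_subset _ _)
  have hn1' : n y1 ≤ 1 := by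
    by_contra hcon
    push Not at hcon
    have : 2 * ((Fintype.card F - 1) * m) ≤ n y1 * ((Fintype.card F - 1) * m) :=
      Nat.mul_le_mul_right _ hcon
    omega
  -- the general form
  have hwt0 : ∀ w : Fin m → F, wt w = 0 ↔ w = 0 := by
    intro w
    rw [wt, Finset.card_eq_zero, Finset.filter_eq_empty_iff]
    constructor
    · intro h; ext i; simpa using h (Finset.mem_univ i)
    · rintro rfl; simp
  have hsplit : ∀ g : (Fin m → F) → ℂ, ∑ y, (n y : ℂ) * g y
      = n 0 * g 0 + n y1 * ∑ y ∈ Finset.univ.filter (fun y : Fin m → F => wt y = 1), g y := by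
    intro g
    have h3 : ∀ y : Fin m → F, (n y : ℂ) * g y = (if y = 0 then n 0 * g 0 else 0)
        + (if wt y = 1 then n y1 * g y else 0) := by
      intro y
      rcases Nat.lt_trichotomy (wt y) 1 with h | h | h
      · have h0 : y = 0 := (hwt0 y).mp (by omega)
        subst h0
        rw [if_pos rfl, if_neg (by omega), add_zero]
      · rw [if_pos h, if_neg (fun h0 => by rw [(hwt0 y).mpr h0] at h; omega), zero_add,
          hinv y y1 (h.trans hy1.symm)]
      · rw [if_neg (fun h0 => by rw [(hwt0 y).mpr h0] at h; omega), if_neg (fun h0 => by omega),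
          hbig y h, Nat.cast_zero, zero_mul, add_zero]
    rw [Finset.sum_congr rfl (fun y _ => h3 y), Finset.sum_add_distrib, Finset.sum_ite_eq',
      if_pos (Finset.mem_univ _), ← Finset.sum_filter, Finset.mul_sum]
  have hval : ∀ a, θ (bh hF f (Multiplicative.ofAdd a))
      = n 0 + n y1 * ((Fintype.card F : ℂ) * (m - wt a : ℂ) - m) := by
    intro a
    rw [hdec, hsplit, sum_wt_one]
    simp
  have h0 : wt (0 : Fin m → F) = 0 := (hwt0 0).mpr rfl
  have hone : (r : ℂ) = n 0 + n y1 * ((Fintype.card F : ℂ) * m - m) := by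
    have h3 := hval 0
    rw [ofAdd_zero, map_one, hr, h0, Nat.cast_zero, sub_zero] at h3
    exact h3
  rcases Nat.eq_zero_or_pos (n y1) with h3 | h3
  · left
    intro a
    rw [hval, hr, hone, h3]
    simp
  · right
    have h4 : n y1 = 1 := by omega
    intro a
    rw [hval, hone, h4]
    push_cast
    ring

end main

end Pool.Agent.U93
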