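import Mathlib
import Pool.Agent.U93.Block

/-!
# Heilbronn functions on alternating groups: the values at involutions
-/

set_option autoImplicit false
set_option linter.unusedSectionVars false

namespace Pool.Agent.U93

open Equiv Equiv.Perm Pool.Agent.H302R2

section val

variable {α : Type*} [Fintype α] [DecidableEq α] {θ : alternatingGroup α → ℂ}

/-- the value at a permutation, `0` for odd permutations -/
noncomputable def V (θ : alternatingGroup α → ℂ) (g : Perm α) : ℂ := by
  classical
  exact if h : g ∈ alternatingGroup α then θ ⟨g, h⟩ else 0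

lemma V_mk {g : Perm α} (h : g ∈ alternatingGroup α) : V θ g = θ ⟨g, h⟩ := dif_pos h

lemma V_coe (g : alternatingGroup α) : V θ (g : Perm α) = θ g := V_mk g.2

lemma V_one : V θ (1 : Perm α) = θ 1 := V_coe 1

lemma V_conj (hθ : IsHeilbronn θ) {g c : Perm α} (hc : Perm.sign c = 1) :
    V θ (c * g * c⁻¹) = V θ g := by
  have hc' : c ∈ alternatingGroup α := mem_alternatingGroup.mpr hc
  by_cases hg : g ∈ alternatingGroup α
  · rw [V_mk hg, V_mk (mul_mem (mul_mem hc' hg) (inv_mem hc'))]
    exact hθ.conj ⟨g, hg⟩ ⟨c, hc'⟩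
  · have hg' : c * g * c⁻¹ ∉ alternatingGroup α := by
      intro h
      apply hg
      have := mul_mem (mul_mem (inv_mem hc') h) hc'
      have h2 : c⁻¹ * (c * g * c⁻¹) * c = g := by group
      rwa [h2] at this
    rw [V, V, dif_neg hg, dif_neg hg']

lemma V_isConj (hθ : IsHeilbronn θ) {g h c : Perm α} (hgh : IsConj g h) (hc : Perm.sign c = -1)
    (hch : c * h = h * c) : V θ g = V θ h := by
  obtain ⟨d, hd⟩ := isConj_iff.mp hgh
  rcases Int.units_eq_one_or (Perm.sign d) with hs | hs
  · rw [← hd, V_conj hθ hs]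
  · have h1 : (c * d) * g * (c * d)⁻¹ = h := by
      calc (c * d) * g * (c * d)⁻¹ = c * (d * g * d⁻¹) * c⁻¹ := by group
        _ = h := by rw [hd, hch, mul_inv_cancel_right]
    rw [← h1, V_conj hθ (by rw [Perm.sign_mul, hc, hs]; rfl)]

lemma isConj_of_prime {g h : Perm α} {p : ℕ} (hp : p.Prime) (hg : orderOf g = p)
    (hh : orderOf h = p) (hs : g.support.card = h.support.card) : IsConj g h := by
  rw [isConj_iff_cycleType_eq]
  obtain ⟨a, ha⟩ := cycleType_prime_order (σ := g) (by rw [hg]; exact hp)
  obtain ⟨b, hb⟩ := cycleType_prime_order (σ := h) (by rw [hh]; exact hp)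
  have h1 := sum_cycleType g
  have h2 := sum_cycleType h
  rw [ha, Multiset.sum_replicate, hg, smul_eq_mul] at h1
  rw [hb, Multiset.sum_replicate, hh, smul_eq_mul] at h2
  have h3 : (a + 1) * p = (b + 1) * p := by rw [h1, h2, hs]
  have h4 := Nat.eq_of_mul_eq_mul_right hp.pos h3
  rw [ha, hb, hg, hh, h4]

end val

section trans

variable {α : Type*} [Fintype α] [DecidableEq α] {θ : alternatingGroup α → ℂ}
variable {F : Type} [Field F] [Fintype F] [DecidableEq F] {m : ℕ}

lemma bh_coe (hF : 3 ≤ Fintype.card F) (f : Fin m × F ↪ α) (a : Multiplicative (Fin m → F)) :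
    ((bh hF f a : alternatingGroup α) : Perm α) = viaEmbeddingHom f (trans m F a) := rfl

lemma V_bh (hF : 3 ≤ Fintype.card F) (f : Fin m × F ↪ α) (a : Multiplicative (Fin m → F)) :
    V θ (viaEmbeddingHom f (trans m F a)) = θ (bh hF f a) := by
  rw [← bh_coe hF, V_coe]

lemma card_support_trans (f : Fin m × F ↪ α) (a : Fin m → F) :
    (viaEmbeddingHom f (trans m F (Multiplicative.ofAdd a))).support.card
      = Fintype.card F * wt a := by
  classical
  have h1 : (viaEmbeddingHom f (trans m F (Multiplicative.ofAdd a))).support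
      = ((Finset.univ.filter fun i => a i ≠ 0) ×ˢ (Finset.univ : Finset F)).map f := by
    ext x
    rw [mem_support, Finset.mem_map]
    constructor
    · intro hx
      by_cases hex : ∃ p, f p = x
      · obtain ⟨⟨i, u⟩, rfl⟩ := hex
        refine ⟨(i, u), ?_, rfl⟩
        rw [Finset.mem_product, Finset.mem_filter]
        refine ⟨⟨Finset.mem_univ _, fun h => ?_⟩, Finset.mem_univ _⟩
        apply hx
        rw [viaEmb_apply]
        congr 1
        simp only at h
        simp [Pool.Agent.H302R2.trans, h]
      · push Not at hex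
        exact absurd (viaEmb_notMem f _ hex) hx
    · rintro ⟨⟨i, u⟩, hp, rfl⟩ h
      rw [Finset.mem_product, Finset.mem_filter] at hp
      rw [viaEmb_apply] at h
      have h2 := f.injective h
      simp [Pool.Agent.H302R2.trans] at h2
      exact hp.1.2 h2
  rw [h1, Finset.card_map, Finset.card_product, Finset.card_univ, mul_comm]
  rfl

lemma exists_wt {j : ℕ} (hj : j ≤ m) : ∃ a : Fin m → F, wt a = j := by
  classical
  obtain ⟨S, -, hS⟩ := Finset.exists_subset_card_eq
    (s := (Finset.univ : Finset (Fin m))) (n := j) (by simpa using hj)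
  refine ⟨fun i => if i ∈ S then 1 else 0, ?_⟩
  rw [wt, ← hS]
  congr 1
  ext i
  simp

end trans

section inv

variable {n : ℕ} {θ : alternatingGroup (Fin n) → ℂ}

lemma support_even {α : Type*} [Fintype α] [DecidableEq α] {z : Perm α} (hz : orderOf z = 2)
    (hs : Perm.sign z = 1) : 4 ∣ z.support.card := by
  obtain ⟨a, ha⟩ := cycleType_prime_order (σ := z) (by rw [hz]; exact Nat.prime_two)
  have h1 := sum_cycleType z
  rw [ha, Multiset.sum_replicate, hz, smul_eq_mul] at h1
  have h2 := sign_of_cycleType z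
  rw [hs, ha, Multiset.sum_replicate, hz, smul_eq_mul, Multiset.card_replicate, pow_add,
    mul_comm (a + 1) 2, pow_mul, neg_one_sq, one_pow, one_mul] at h2
  have h3 : Even (a + 1) := by
    by_contra hcon
    rw [Nat.not_even_iff_odd] at hcon
    rw [hcon.neg_one_pow] at h2
    exact absurd h2 (by decide)
  obtain ⟨k, hk⟩ := h3
  exact ⟨k, by rw [← h1, hk]; ring⟩

/-- The values at the involutions. -/
theorem inv_value (hn : 8 ≤ n) (hθ : IsHeilbronn θ) (hD : ¬ HasDoubleSwaps θ) {r : ℕ}
    (hr : θ 1 = r) (hrn : r + 2 ≤ n) (hne : Even n) {z : Perm (Fin n)} (hz2 : z * z = 1)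
    (hzs : Perm.sign z = 1) : V θ z = r - (z.support.card : ℂ) := by
  classical
  by_cases hz1 : z = 1
  · subst hz1
    rw [V_one, hr]
    simp
  have : Fact (Nat.Prime 2) := ⟨Nat.prime_two⟩
  let F := GaloisField 2 2
  have : Fintype F := Fintype.ofFinite F
  have hcardF : Fintype.card F = 4 := by
    rw [← Nat.card_eq_fintype_card]; exact GaloisField.card 2 2 (by omega)
  have hF : 3 ≤ Fintype.card F := by omega
  set m := n / 4 with hm
  have hm2 : 2 ≤ m := by omega
  have h4m : m * 4 ≤ n := Nat.div_mul_le_self n 4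
  have h4m' : n ≤ 4 * m + 2 := by
    obtain ⟨k, hk⟩ := hne
    omega
  have hemb : Nonempty (Fin m × F ↪ Fin n) := by
    apply Function.Embedding.nonempty_of_card_le
    rw [Fintype.card_prod, Fintype.card_fin, Fintype.card_fin, hcardF]
    exact h4m
  obtain ⟨f⟩ := hemb
  have key := block_dich hθ hF hm2 f hr (by rw [hcardF]; omega) (by rw [hcardF]; omega)
  have hord2 : ∀ w : Perm (Fin n), w * w = 1 → w ≠ 1 → orderOf w = 2 := by
    intro w hw hw1
    exact orderOf_eq_prime (by rw [pow_two]; exact hw) hw1
  have htr2 : ∀ a : Fin m → F, viaEmbeddingHom f (trans m F (Multiplicative.ofAdd a)) *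
      viaEmbeddingHom f (trans m F (Multiplicative.ofAdd a)) = 1 := by
    intro a
    rw [← map_mul, ← map_mul, ← ofAdd_add]
    have : a + a = 0 := by
      ext i
      simp only [Pi.add_apply, Pi.zero_apply]
      exact CharTwo.add_self_eq_zero _
    rw [this, ofAdd_zero, map_one, map_one]
  have hzo := hord2 z hz2 hz1
  obtain ⟨j, hj⟩ := support_even hzo hzs
  have hjm : j ≤ m := by
    have h1 := Finset.card_le_univ z.support
    rw [Fintype.card_fin] at h1
    omega
  obtain ⟨a, ha⟩ := exists_wt (F := F) hjm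
  have hcard := card_support_trans f a
  rw [hcardF, ha] at hcard
  have hj0 : j ≠ 0 := by
    rintro rfl
    rw [mul_zero, Finset.card_eq_zero, support_eq_empty_iff] at hj
    exact hz1 hj
  set w := viaEmbeddingHom f (trans m F (Multiplicative.ofAdd a)) with hw
  have hw1 : w ≠ 1 := by
    intro h
    rw [h, support_one, Finset.card_empty] at hcard
    omega
  have hwo := hord2 w (htr2 a) hw1
  have hconj : IsConj w z := isConj_of_prime Nat.prime_two hwo hzo (by rw [hcard, hj])
  -- an odd permutation commuting with `z`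
  obtain ⟨x, hx⟩ : ∃ x, z x ≠ x := by
    by_contra hcon
    push Not at hcon
    exact hz1 (Equiv.ext hcon)
  have hV : V θ w = V θ z := V_isConj hθ hconj (sign_swap (fun h => hx h.symm) :
    Perm.sign (swap x (z x)) = -1) (by
      rw [Equiv.mul_swap_eq_swap_mul]
      have : z (z x) = x := by rw [← Perm.mul_apply, hz2, Perm.one_apply]
      rw [this, swap_comm])
  rcases key with key | key
  · exfalso
    apply hD
    have hK : InK θ w := ⟨(bh hF f (Multiplicative.ofAdd a)).2, key a⟩
    intro a b c d hab hac had hbc hbd hcd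
    exact hK.double_swap hθ (htr2 _) hw1 hab hac had hbc hbd hcd
  · rw [← hV, hw, V_bh hF, key, hcardF, ha, hj]
    push_cast
    ring

end inv

end Pool.Agent.U93
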