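import Mathlib
import Pool.Agent.U93.Inv

/-!
# Translations with sum zero and shifts of the blocks
-/

set_option autoImplicit false
set_option linter.unusedSectionVars false

namespace Pool.Agent.U93

open Equiv Equiv.Perm Pool.Agent.H302R2

section tr

variable {Ω A : Type*} [AddCommGroup A]

/-- the translations of the blocks -/
def tr (Ω A : Type*) [AddCommGroup A] : Multiplicative (Ω → A) →* Perm (Ω × A) where
  toFun a := Equiv.prodCongrRight (fun i => Equiv.addRight (Multiplicative.toAdd a i))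
  map_one' := by ext x <;> simp
  map_mul' a b := by
    ext ⟨i, x⟩
    · simp
    · simp only [prodCongrRight_apply, coe_addRight, toAdd_mul, Pi.add_apply, Perm.mul_apply]
      abel

lemma tr_apply (a : Multiplicative (Ω → A)) (i : Ω) (x : A) :
    tr Ω A a (i, x) = (i, x + Multiplicative.toAdd a i) := rfl

/-- permutations of the blocks -/
def sh (A : Type*) {Ω : Type*} (ρ : Perm Ω) : Perm (Ω × A) := Equiv.prodCongrLeft (fun _ => ρ)

lemma sh_apply (ρ : Perm Ω) (i : Ω) (x : A) : sh A ρ (i, x) = (ρ i, x) := rfl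

lemma sh_mul (ρ σ : Perm Ω) : sh A (ρ * σ) = sh A ρ * sh A σ := by
  ext ⟨i, x⟩ <;> rfl

lemma sh_one : sh A (1 : Perm Ω) = 1 := by
  ext ⟨i, x⟩ <;> rfl

lemma sh_inv (ρ : Perm Ω) : (sh A ρ)⁻¹ = sh A ρ⁻¹ := by
  rw [inv_eq_iff_mul_eq_one, ← sh_mul, mul_inv_cancel, sh_one]

lemma sh_pow (ρ : Perm Ω) (k : ℕ) : (sh A ρ) ^ k = sh A (ρ ^ k) := by
  induction k with
  | zero => rw [pow_zero, pow_zero, sh_one]
  | succ k ih => rw [pow_succ, pow_succ, sh_mul, ih]

lemma sh_conj (ρ : Perm Ω) (a : Ω → A) :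
    sh A ρ * tr Ω A (Multiplicative.ofAdd a) * (sh A ρ)⁻¹
      = tr Ω A (Multiplicative.ofAdd (fun i => a (ρ⁻¹ i))) := by
  rw [mul_inv_eq_iff_eq_mul]
  ext ⟨i, x⟩
  · simp [sh_apply, tr_apply]
  · simp [sh_apply, tr_apply]

variable [Fintype Ω] [DecidableEq Ω] [Fintype A] [DecidableEq A]

/-- the sign of a translation, as a homomorphism -/
def sgn (A : Type*) [AddCommGroup A] [Fintype A] [DecidableEq A] : Multiplicative A →* ℤˣ where
  toFun x := Perm.sign (Equiv.addRight (Multiplicative.toAdd x))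
  map_one' := by simp
  map_mul' x y := by
    rw [← Perm.sign_mul]
    congr 1
    ext z
    simp only [coe_addRight, toAdd_mul, Perm.mul_apply]
    abel

lemma sign_tr (a : Multiplicative (Ω → A)) (h : ∑ i, Multiplicative.toAdd a i = 0) :
    Perm.sign (tr Ω A a) = 1 := by
  change Perm.sign (Equiv.prodCongrRight (fun i => Equiv.addRight (Multiplicative.toAdd a i))) = 1
  rw [sign_prodCongrRight]
  have h1 : ∀ i, Perm.sign (Equiv.addRight (Multiplicative.toAdd a i))
      = sgn A (Multiplicative.ofAdd (Multiplicative.toAdd a i)) := fun i => rfl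
  rw [Finset.prod_congr rfl (fun i _ => h1 i), ← map_prod, ← ofAdd_sum, h, ofAdd_zero, map_one]

lemma sign_sh (ρ : Perm Ω) : Perm.sign (sh A ρ) = Perm.sign ρ ^ Fintype.card A := by
  rw [sh, sign_prodCongrLeft, Finset.prod_const, Finset.card_univ]

end tr

section M0

/-- the functions with sum zero -/
def M0 (Ω A : Type*) [Fintype Ω] [AddCommGroup A] : AddSubgroup (Ω → A) where
  carrier := {a | ∑ i, a i = 0}
  zero_mem' := by simp
  add_mem' := by
    intro a b ha hb
    simp only [Set.mem_setOf_eq, Pi.add_apply] at *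
    rw [Finset.sum_add_distrib, ha, hb, add_zero]
  neg_mem' := by
    intro a ha
    simp only [Set.mem_setOf_eq, Pi.neg_apply] at *
    rw [Finset.sum_neg_distrib, ha, neg_zero]

lemma mem_M0 {Ω A : Type*} [Fintype Ω] [AddCommGroup A] {a : Ω → A} :
    a ∈ M0 Ω A ↔ ∑ i, a i = 0 := Iff.rfl

variable {α : Type*} [Fintype α] [DecidableEq α]
variable {Ω A : Type*} [Fintype Ω] [DecidableEq Ω] [AddCommGroup A] [Fintype A] [DecidableEq A]

/-- the translations with sum zero, as a homomorphism to the alternating group -/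
noncomputable def nu (f : Ω × A ↪ α) : Multiplicative (M0 Ω A) →* alternatingGroup α :=
  ((viaEmbeddingHom f).comp ((tr Ω A).comp
    (AddMonoidHom.toMultiplicative (M0 Ω A).subtype))).codRestrict (alternatingGroup α)
    (fun a => by
      rw [mem_alternatingGroup, MonoidHom.comp_apply, viaEmb_sign, MonoidHom.comp_apply]
      exact sign_tr _ (Multiplicative.toAdd a).2)

lemma nu_coe (f : Ω × A ↪ α) (a : Multiplicative (M0 Ω A)) :
    ((nu f a : alternatingGroup α) : Perm α)
      = viaEmbeddingHom f (tr Ω A (Multiplicative.ofAdd ((Multiplicative.toAdd a : M0 Ω A) : Ω → A))) :=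
  rfl

lemma nu_inj (f : Ω × A ↪ α) : Function.Injective (nu f : Multiplicative (M0 Ω A) → _) := by
  intro a b h
  have h1 := congrArg (fun g : alternatingGroup α => (g : Perm α)) h
  simp only [nu_coe] at h1
  have h2 := viaEmbeddingHom_injective f h1
  apply Multiplicative.toAdd.injective
  apply Subtype.ext
  ext i
  have h3 := congrArg (fun π : Perm (Ω × A) => (π (i, 0)).2) h2
  simpa [tr_apply] using h3

/-- the shift of the blocks, as an element of the alternating group -/
noncomputable def xs (f : Ω × A ↪ α) (ρ : Perm Ω) (hs : Perm.sign (sh A ρ) = 1) :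
    alternatingGroup α :=
  ⟨viaEmbeddingHom f (sh A ρ), by rw [mem_alternatingGroup, viaEmb_sign]; exact hs⟩

lemma sum_shift (ρ : Perm Ω) (a : Ω → A) : ∑ i, a (ρ⁻¹ i) = ∑ i, a i :=
  Equiv.sum_comp ρ⁻¹ a

lemma xs_conj (f : Ω × A ↪ α) (ρ : Perm Ω) (hs : Perm.sign (sh A ρ) = 1)
    (a : M0 Ω A) : xs f ρ hs * nu f (Multiplicative.ofAdd a) * (xs f ρ hs)⁻¹
      = nu f (Multiplicative.ofAdd ⟨fun i => (a : Ω → A) (ρ⁻¹ i), by
          rw [mem_M0, sum_shift]; exact a.2⟩) := by
  apply Subtype.ext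
  rw [Subgroup.coe_mul, Subgroup.coe_mul, Subgroup.coe_inv, nu_coe, nu_coe]
  change viaEmbeddingHom f (sh A ρ) * viaEmbeddingHom f _ * (viaEmbeddingHom f (sh A ρ))⁻¹ = _
  rw [← map_inv, ← map_mul, ← map_mul, toAdd_ofAdd, sh_conj]
  rfl

end M0

end Pool.Agent.U93
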