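import Mathlib
import Pool.Agent.U93.Tr

/-!
# Elements of odd prime order in the kernel
-/

set_option autoImplicit false
set_option linter.unusedSectionVars false

namespace Pool.Agent.U93

open Equiv Equiv.Perm Pool.Agent.H302R2

/-- An element of prime order in the kernel, which acts without fixed points on an abelian group,
forces this group into the kernel. -/
theorem frob_kernel {G : Type*} [Group G] [Finite G] {θ : G → ℂ} (hθ : IsHeilbronn θ)
    {M : Type*} [CommGroup M] [Finite M] (ν : M →* G) {x : G} {p : ℕ} (hp : p.Prime)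
    (hxp : x ^ p = 1) (hx : ∀ m, ∃ m', x * ν m * x⁻¹ = ν m') (hθx : θ x = θ 1)
    (hs : ∀ k : ℕ, ¬ p ∣ k → ∀ m, ∃ w, ν m = ν w * x ^ k * (ν w)⁻¹ * (x ^ k)⁻¹) (m : M) :
    θ (ν m) = θ 1 := by
  classical
  have : Fact p.Prime := ⟨hp⟩
  have hxk : ∀ (k : ℕ) (m : M), ∃ m', x ^ k * ν m * (x ^ k)⁻¹ = ν m' := by
    intro k
    induction k with
    | zero => intro m; exact ⟨m, by simp⟩
    | succ k ih =>
      intro m
      obtain ⟨m1, h1⟩ := ih m
      obtain ⟨m2, h2⟩ := hx m1
      refine ⟨m2, ?_⟩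
      rw [← h2, ← h1, pow_succ']
      group
  let E : Subgroup (G × Multiplicative (ZMod p)) :=
    { carrier := {e | ∃ (m : M) (k : ℕ), e.1 = ν m * x ^ k ∧ e.2 = Multiplicative.ofAdd (k : ZMod p)}
      one_mem' := ⟨1, 0, by simp, by simp⟩
      mul_mem' := by
        rintro ⟨a1, a2⟩ ⟨b1, b2⟩ ⟨m, k, h1, h2⟩ ⟨m', k', h3, h4⟩
        simp only at h1 h2 h3 h4
        obtain ⟨m'', h5⟩ := hxk k m'
        refine ⟨m * m'', k + k', ?_, ?_⟩
        · simp only [Prod.fst_mul, h1, h3, map_mul, ← h5]
          rw [pow_add]; group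
        · simp only [Prod.snd_mul, h2, h4]
          push_cast; rfl
      inv_mem' := by
        rintro ⟨a1, a2⟩ ⟨m, k, h1, h2⟩
        simp only at h1 h2
        -- `x ^ (k * (p - 1))` is the inverse of `x ^ k`
        have hinv : x ^ (k * (p - 1)) = (x ^ k)⁻¹ := by
          rw [eq_inv_iff_mul_eq_one, ← pow_add]
          have h6 : k * (p - 1) + k = p * k := by
            obtain ⟨q, hq⟩ := Nat.exists_eq_add_of_lt hp.one_lt
            rw [hq]; simp; ring
          rw [h6, pow_mul, hxp, one_pow]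
        obtain ⟨m', h5⟩ := hxk (k * (p - 1)) m⁻¹
        refine ⟨m', k * (p - 1), ?_, ?_⟩
        · simp only [Prod.fst_inv, h1, ← h5, hinv, map_inv]
          group
        · simp only [Prod.snd_inv, h2]
          rw [← ofAdd_neg]
          congr 1
          rw [Nat.cast_mul, Nat.cast_sub hp.one_lt.le, Nat.cast_one, ZMod.natCast_self]
          ring }
  have hone : Multiplicative.ofAdd (1 : ZMod p) ≠ 1 := by
    intro h
    exact one_ne_zero (Multiplicative.ofAdd.injective h)
  obtain ⟨lam, hlam⟩ := CommGroup.exists_apply_ne_one_of_hasEnoughRootsOfUnity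
    (Multiplicative (ZMod p)) ℂ hone
  have key := hθ.kernel_lemma (E := E) ((MonoidHom.fst _ _).comp E.subtype)
    (lam.comp ((MonoidHom.snd _ _).comp E.subtype))
    (e₀ := ⟨(x, Multiplicative.ofAdd 1), 1, 1, by simp, by simp⟩) hlam ?_
    ⟨(ν m, 1), m, 0, by simp, by simp⟩
  · exact key
  · rintro ⟨⟨a1, a2⟩, m, k, h1, h2⟩ hne
    simp only at h1 h2
    subst h1 h2
    simp only [MonoidHom.coe_comp, Function.comp_apply, Subgroup.coe_subtype,
      MonoidHom.coe_snd, MonoidHom.coe_fst] at hne ⊢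
    have hk : ¬ p ∣ k := by
      intro hk
      apply hne
      rw [(ZMod.natCast_eq_zero_iff k p).mpr hk, ofAdd_zero, map_one]
    obtain ⟨w, hw⟩ := hs k hk m
    have h3 : ν m * x ^ k = ν w * x ^ k * (ν w)⁻¹ := by
      rw [hw]; group
    rw [h3, hθ.conj]
    exact hθ.pow_of_eq hθx k

section shift

variable {α : Type*} [Fintype α] [DecidableEq α]

lemma xs_pow {Ω A : Type*} [Fintype Ω] [DecidableEq Ω] [AddCommGroup A] [Fintype A]
    [DecidableEq A] (f : Ω × A ↪ α) (ρ : Perm Ω) (hs : Perm.sign (sh A ρ) = 1) (k : ℕ) :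
    (((xs f ρ hs) ^ k : alternatingGroup α) : Perm α) = viaEmbeddingHom f (sh A (ρ ^ k)) := by
  rw [Subgroup.coe_pow, ← sh_pow, map_pow]
  rfl

/-- every function with sum zero is of the form `w - w ∘ ρ⁻¹` for a cyclic shift `ρ` -/
lemma exists_diff {p : ℕ} [Fact p.Prime] (hp : Odd p) {k : ℕ} (hk : ¬ p ∣ k)
    (v : M0 (ZMod p) (ZMod 2)) :
    ∃ w : M0 (ZMod p) (ZMod 2), ∀ i, (v : ZMod p → ZMod 2) i = (w : ZMod p → ZMod 2) i
      - (w : ZMod p → ZMod 2) (i - k) := by
  classical
  let T : M0 (ZMod p) (ZMod 2) →+ M0 (ZMod p) (ZMod 2) :=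
    { toFun := fun w => ⟨fun i => (w : ZMod p → ZMod 2) i - (w : ZMod p → ZMod 2) (i - k), by
        rw [mem_M0, Finset.sum_sub_distrib, sub_eq_zero]
        exact (Equiv.sum_comp (Equiv.subRight (k : ZMod p)) (w : ZMod p → ZMod 2)).symm⟩
      map_zero' := by ext i; simp
      map_add' := fun a b => by
        ext i
        simp only [AddSubgroup.coe_add, Pi.add_apply]
        ring }
  have hk0 : (k : ZMod p) ≠ 0 := by
    rw [ne_eq, ZMod.natCast_eq_zero_iff]; exact hk
  have hinj : Function.Injective T := by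
    rw [injective_iff_map_eq_zero]
    intro w hw
    have h1 : ∀ i, (w : ZMod p → ZMod 2) i = (w : ZMod p → ZMod 2) (i - k) := by
      intro i
      have := congrArg (fun z : M0 (ZMod p) (ZMod 2) => (z : ZMod p → ZMod 2) i) hw
      exact sub_eq_zero.mp this
    have h2 : ∀ (j : ℕ) (i : ZMod p), (w : ZMod p → ZMod 2) (i + j * k) = (w : ZMod p → ZMod 2) i := by
      intro j
      induction j with
      | zero => intro i; simp
      | succ j ih =>
        intro i
        have h5 : i + ((j + 1 : ℕ) : ZMod p) * k - k = i + j * k := by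
          push_cast; ring
        rw [h1 (i + ((j + 1 : ℕ) : ZMod p) * k), h5, ih i]
    have h3 : ∀ i, (w : ZMod p → ZMod 2) i = (w : ZMod p → ZMod 2) 0 := by
      intro i
      have h4 := h2 (i * (k : ZMod p)⁻¹).val 0
      rw [ZMod.natCast_zmod_val, zero_add, inv_mul_cancel_right₀ hk0] at h4
      exact h4
    have h4 := w.2
    rw [mem_M0, Finset.sum_congr rfl (fun i _ => h3 i), Finset.sum_const, Finset.card_univ,
      ZMod.card, nsmul_eq_mul] at h4
    have h5 : (p : ZMod 2) = 1 := by
      obtain ⟨c, hc⟩ := hp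
      rw [hc]
      push_cast
      rw [show (2 : ZMod 2) = 0 from rfl, zero_mul, zero_add]
    rw [h5, one_mul] at h4
    ext i
    rw [h3 i, h4]; rfl
  obtain ⟨w, hw⟩ := Finite.surjective_of_injective hinj v
  refine ⟨w, fun i => ?_⟩
  rw [← hw]
  rfl

end shift

section main

variable {α : Type*} [Fintype α] [DecidableEq α] {θ : alternatingGroup α → ℂ}

/-- The translations of two blocks of odd prime size are not all in the kernel of `θ`, if `θ` is
not constant. -/
theorem ker_prime (hθ : IsHeilbronn θ) {p b : ℕ} [hp : Fact p.Prime] (hodd : Odd p) (hb : 2 ≤ b)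
    (hF : 3 ≤ Fintype.card (ZMod p)) (f : Fin b × ZMod p ↪ α)
    (hK : ∀ a, θ (bh hF f (Multiplicative.ofAdd a)) = θ 1) : HasDoubleSwaps θ := by
  classical
  let i0 : Fin b := ⟨0, by omega⟩
  let i1 : Fin b := ⟨1, by omega⟩
  have hi : i0 ≠ i1 := by simp [i0, i1]
  let g : ZMod p × ZMod 2 ↪ α :=
    ⟨fun q => f (if q.2 = 0 then i0 else i1, q.1), by
      rintro ⟨u, e⟩ ⟨u', e'⟩ h
      have h1 := f.injective h
      simp only [Prod.mk.injEq] at h1
      obtain ⟨h2, rfl⟩ := h1
      have h3 : e = 0 ↔ e' = 0 := by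
        by_cases he : e = 0 <;> by_cases he' : e' = 0 <;> simp_all
      have h4 : ∀ e e' : ZMod 2, (e = 0 ↔ e' = 0) → e = e' := by decide
      rw [h4 e e' h3]⟩
  have hg : ∀ u e, g (u, e) = f (if e = 0 then i0 else i1, u) := fun u e => rfl
  let ρ : Perm (ZMod p) := Equiv.addRight 1
  have hs : Perm.sign (sh (ZMod 2) ρ) = 1 := by
    rw [sign_sh, ZMod.card, Int.units_sq]
  let x := xs g ρ hs
  -- `x` is a translation
  let a0 : Fin b → ZMod p := fun i => if i = i0 ∨ i = i1 then 1 else 0
  have hxa : x = bh hF f (Multiplicative.ofAdd a0) := by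
    apply Subtype.ext
    rw [bh_coe]
    change viaEmbeddingHom g (sh (ZMod 2) ρ) = _
    ext y
    by_cases hex : ∃ q, f q = y
    · obtain ⟨⟨i, u⟩, rfl⟩ := hex
      rw [viaEmb_apply]
      by_cases hi0 : i = i0
      · subst hi0
        have : f (i0, u) = g (u, 0) := by rw [hg, if_pos rfl]
        rw [this, viaEmb_apply, sh_apply, hg, if_pos rfl]
        simp [Pool.Agent.H302R2.trans, a0, ρ]
      · by_cases hi1 : i = i1
        · subst hi1
          have : f (i1, u) = g (u, 1) := by rw [hg, if_neg (by decide)]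
          rw [this, viaEmb_apply, sh_apply, hg, if_neg (by decide)]
          simp [Pool.Agent.H302R2.trans, a0, ρ]
        · rw [viaEmb_notMem g]
          · simp [Pool.Agent.H302R2.trans, a0, hi0, hi1]
          · rintro ⟨u', e⟩ h
            rw [hg] at h
            have h1 := f.injective h
            simp only [Prod.mk.injEq] at h1
            by_cases he : e = 0
            · rw [if_pos he] at h1; exact hi0 h1.1.symm
            · rw [if_neg he] at h1; exact hi1 h1.1.symm
    · push Not at hex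
      rw [viaEmb_notMem f _ hex, viaEmb_notMem g _ (fun q hq => hex _ hq)]
  have hρ : ∀ (k : ℕ) (u : ZMod p), (ρ ^ k) u = u + k := by
    intro k
    induction k with
    | zero => intro u; simp
    | succ k ih =>
      intro u
      rw [pow_succ', Perm.mul_apply, ih]
      simp only [ρ, coe_addRight]
      push_cast; ring
  have hxp : x ^ p = 1 := by
    apply Subtype.ext
    rw [xs_pow]
    have : ρ ^ p = 1 := by
      ext u
      rw [hρ, ZMod.natCast_self, add_zero, Perm.one_apply]
    rw [this, sh_one, map_one]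
    rfl
  have hker := frob_kernel hθ (nu g) hp.out hxp (x := x) (fun m => ?_) (by rw [hxa, hK]) ?_
  · -- a double transposition
    let v : M0 (ZMod p) (ZMod 2) := ⟨fun i => if i = 0 ∨ i = 1 then 1 else 0, by
      rw [mem_M0, ← Finset.sum_filter, Finset.sum_const]
      have h1 : (Finset.univ.filter fun i : ZMod p => i = 0 ∨ i = 1) = {0, 1} := by
        ext i; simp
      rw [h1, Finset.card_pair (by exact zero_ne_one)]
      rfl⟩
    set z : Perm α := viaEmbeddingHom g (tr (ZMod p) (ZMod 2)
      (Multiplicative.ofAdd ((v : M0 (ZMod p) (ZMod 2)) : ZMod p → ZMod 2))) with hz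
    have hzK : InK θ z := ⟨(nu g (Multiplicative.ofAdd v)).2, hker (Multiplicative.ofAdd v)⟩
    have hz2 : z * z = 1 := by
      rw [hz, ← map_mul, ← map_mul, ← ofAdd_add]
      have : ((v : M0 (ZMod p) (ZMod 2)) : ZMod p → ZMod 2) + (v : ZMod p → ZMod 2) = 0 := by
        ext i
        simp only [Pi.add_apply, Pi.zero_apply]
        exact CharTwo.add_self_eq_zero _
      rw [this, ofAdd_zero, map_one, map_one]
    have hz1 : z ≠ 1 := by
      intro h
      have h1 : tr (ZMod p) (ZMod 2) (Multiplicative.ofAdd ((v : M0 (ZMod p) (ZMod 2)) :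
          ZMod p → ZMod 2)) = 1 := by
        apply viaEmbeddingHom_injective g
        rw [map_one]; exact h
      have h2 := congrArg (fun π : Perm (ZMod p × ZMod 2) => (π (0, 0)).2) h1
      simp [tr_apply, v] at h2
    intro a b c d hab hac had hbc hbd hcd
    exact hzK.double_swap hθ hz2 hz1 hab hac had hbc hbd hcd
  · exact ⟨_, xs_conj g ρ hs (Multiplicative.toAdd m)⟩
  · intro k hk m
    obtain ⟨w, hw⟩ := exists_diff hodd hk (Multiplicative.toAdd m)
    refine ⟨Multiplicative.ofAdd w, ?_⟩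
    apply Subtype.ext
    rw [Subgroup.coe_mul, Subgroup.coe_mul, Subgroup.coe_mul, Subgroup.coe_inv, Subgroup.coe_inv,
      xs_pow, nu_coe, nu_coe]
    simp only [← map_inv, ← map_mul]
    rw [sh_inv]
    congr 1
    rw [← ofAdd_neg]
    have hρi : ∀ i : ZMod p, (ρ ^ k)⁻¹ i = i - k := by
      intro i
      rw [Perm.inv_eq_iff_eq, hρ]
      ring
    ext ⟨i, e⟩
    · simp only [Perm.mul_apply, sh_apply, tr_apply, hρi, hρ]
      ring
    · simp only [Perm.mul_apply, sh_apply, tr_apply, hρi, hρ]
      simp only [toAdd_ofAdd, Pi.neg_apply, hw, sub_add_cancel]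
      ring

end main

end Pool.Agent.U93
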