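import Mathlib
import Pool.Agent.H302R6.DedB
import Pool.Agent.H302R2.Kernel

/-!
# Heilbronn functions on an abelian subgroup and a coset of it
-/

set_option autoImplicit false
set_option linter.unusedSectionVars false

namespace Pool.Agent.U93

open Pool.Agent.H302R2 Pool.Agent.H302R6

universe u v

variable {G : Type u} [Group G] [Finite G] {θ : G → ℂ}

lemma mem_normalizer_of (N : Subgroup G) {x : G} (hx : ∀ n ∈ N, x * n * x⁻¹ ∈ N) :
    x ∈ Subgroup.normalizer (N : Set G) := by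
  rw [Subgroup.mem_normalizer_iff]
  have hinj : Function.Injective (fun d : N => (⟨x * d * x⁻¹, hx d d.2⟩ : N)) := by
    intro a b hab
    have := congrArg Subtype.val hab
    simp only at this
    exact Subtype.ext (mul_left_cancel (mul_right_cancel this))
  have hsurj := Finite.surjective_of_injective hinj
  intro h
  constructor
  · exact hx h
  · intro h1
    obtain ⟨d', hd'⟩ := hsurj ⟨x * h * x⁻¹, h1⟩
    have := congrArg Subtype.val hd'
    simp only at this
    have h2 : (d' : G) = h := mul_left_cancel (mul_right_cancel this)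
    rw [← h2]; exact d'.2

/-- the twisted sums over a coset vanish if the multiplicity vanishes -/
lemma coset_zero (hθ : IsHeilbronn θ) (N : Subgroup G) [Fintype N] {x : G}
    (hx : ∀ n ∈ N, x * n * x⁻¹ ∈ N) (l : N →* ℂˣ)
    (h0 : ∑ n : N, θ n * (((l n)⁻¹ : ℂˣ) : ℂ) = 0) :
    ∑ n : N, θ (n * x) * (((l n)⁻¹ : ℂˣ) : ℂ) = 0 := by
  classical
  set E := Subgroup.normalizer (N : Set G) with hE
  have hNE : N ≤ E := Subgroup.le_normalizer
  have hxE : x ∈ E := mem_normalizer_of N hx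
  have hn : (N.subgroupOf E).Normal := Subgroup.normal_in_normalizer
  have : Fintype (N.subgroupOf E) := Fintype.ofFinite _
  let e := Subgroup.subgroupOfEquivOfLe hNE
  have h1 := isotypic_zero (hθ.comp E.subtype) (N.subgroupOf E) (l.comp e.toMonoidHom) (by
    rw [← h0, ← e.toEquiv.sum_comp]
    rfl) ⟨x, hxE⟩
  rw [← h1, ← e.toEquiv.sum_comp]
  rfl

/-- the twisted sums over a coset vanish if the character is not invariant -/
lemma coset_zero' (hconj : ∀ g h : G, θ (h * g * h⁻¹) = θ g) (N : Subgroup G) [Fintype N] {x : G}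
    (l : N →* ℂˣ) {m m' : N} (hm : x * m * x⁻¹ = m') (hl : l m' ≠ l m) :
    ∑ n : N, θ (n * x) * (((l n)⁻¹ : ℂˣ) : ℂ) = 0 := by
  set S := ∑ n : N, θ (n * x) * (((l n)⁻¹ : ℂˣ) : ℂ) with hS
  have h1 : S = S * (((l m)⁻¹ * l m' : ℂˣ) : ℂ) := by
    conv_lhs => rw [hS]
    conv_rhs => rw [hS, ← Equiv.sum_comp ((Equiv.mulLeft m⁻¹).trans
      (Equiv.mulRight m')), Finset.sum_mul]
    refine Finset.sum_congr rfl fun n _ => ?_
    have e1 : (((Equiv.mulLeft m⁻¹).trans (Equiv.mulRight m')) n : N)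
        = m⁻¹ * n * m' := rfl
    rw [e1]
    have e2 : ((m⁻¹ * n * m' : N) : G) * x
        = (m : G)⁻¹ * ((n : G) * x) * ((m : G)⁻¹)⁻¹ := by
      simp only [Subgroup.coe_mul, Subgroup.coe_inv, ← hm]
      group
    rw [e2, hconj, map_mul, map_mul, map_inv, mul_assoc, ← Units.val_mul]
    congr 2
    rw [mul_comm (l m)⁻¹ (l n), mul_inv, mul_inv, inv_inv]
    have : ∀ a b c : ℂˣ, a⁻¹ * b * c⁻¹ * (b⁻¹ * c) = a⁻¹ := by
      intro a b c
      rw [mul_assoc, mul_assoc, mul_comm b, mul_assoc, mul_assoc, mul_comm c b]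
      group
    rw [this]
  have h2 : (((l m)⁻¹ * l m' : ℂˣ) : ℂ) ≠ 1 := by
    intro h3
    apply hl
    have h4 : (l m)⁻¹ * l m' = 1 := Units.ext h3
    exact (inv_mul_eq_one.mp h4).symm
  have h3 : S * (1 - (((l m)⁻¹ * l m' : ℂˣ) : ℂ)) = 0 := by
    rw [mul_sub, mul_one, ← h1, sub_self]
  rcases mul_eq_zero.mp h3 with h4 | h4
  · exact h4
  · exact absurd (sub_eq_zero.mp h4).symm h2

lemma sum_inv_char {M : Type v} [CommGroup M] [Fintype M] (l : M →* ℂˣ) (hl : l ≠ 1) :
    ∑ m : M, (((l m)⁻¹ : ℂˣ) : ℂ) = 0 := by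
  have h := finsum_char_eq_zero l⁻¹ (fun h => hl (by
    ext m
    have h1 := DFunLike.congr_fun h m
    simpa using h1))
  rw [finsum_eq_sum_of_fintype] at h
  exact h

/-- **Coset lemma.** Let `θ` be of the form `c - ∑ g_ω` on an abelian group `M` normalized by `x`,
where `g_ω` is invariant under a subgroup `K_ω`, and no nontrivial `x`-invariant linear character
of `M` is trivial on a `K_ω`. Then `θ` is constant on the coset `M x`. -/
theorem coset_const (hθ : IsHeilbronn θ) {M : Type v} [CommGroup M] [Fintype M] (ν : M →* G)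
    (hν : Function.Injective ν) {x : G} (hx : ∀ m, ∃ m', x * ν m * x⁻¹ = ν m')
    {Ω : Type*} [Fintype Ω] (K : Ω → Subgroup M) (g : Ω → M → ℂ) (c : ℂ)
    (hg : ∀ ω, ∀ b ∈ K ω, ∀ m, g ω (m * b) = g ω m) (hform : ∀ m, θ (ν m) = c - ∑ ω, g ω m)
    (hl : ∀ l : M →* ℂˣ, l ≠ 1 → (∀ m m', x * ν m * x⁻¹ = ν m' → l m' = l m) →
      ∀ ω, ∃ b ∈ K ω, l b ≠ 1) (m : M) : θ (ν m * x) = θ x := by
  classical
  have hcoef : ∀ l : M →* ℂˣ, l ≠ 1 →
      ∑ m : M, θ (ν m * x) * (((l m)⁻¹ : ℂˣ) : ℂ) = 0 := by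
    intro l hl1
    have : Fintype ν.range := Fintype.ofFinite _
    let e : M ≃* ν.range := ν.ofInjective hν
    have he : ∀ m, ((e m : ν.range) : G) = ν m := fun m => rfl
    have hxN : ∀ n ∈ ν.range, x * n * x⁻¹ ∈ ν.range := by
      rintro _ ⟨m, rfl⟩
      obtain ⟨m', hm'⟩ := hx m
      exact ⟨m', hm'.symm⟩
    have key : ∑ n : ν.range, θ (n * x) * ((((l.comp e.symm.toMonoidHom) n)⁻¹ : ℂˣ) : ℂ) = 0 := by
      by_cases hinv : ∀ m m', x * ν m * x⁻¹ = ν m' → l m' = l m
      · apply coset_zero hθ _ hxN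
        rw [← e.toEquiv.sum_comp]
        have h1 : ∀ m : M, θ ((e.toEquiv m : ν.range) : G) *
            ((((l.comp e.symm.toMonoidHom) (e.toEquiv m))⁻¹ : ℂˣ) : ℂ)
            = c * (((l m)⁻¹ : ℂˣ) : ℂ) - ∑ ω, g ω m * (((l m)⁻¹ : ℂˣ) : ℂ) := by
          intro m
          have e1 : (l.comp e.symm.toMonoidHom) (e.toEquiv m) = l m := by
            change l (e.symm (e m)) = l m
            rw [e.symm_apply_apply]
          rw [e1]
          change θ (ν m) * _ = _
          rw [hform, sub_mul, Finset.sum_mul]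
        rw [Finset.sum_congr rfl (fun m _ => h1 m), Finset.sum_sub_distrib, ← Finset.mul_sum,
          sum_inv_char l hl1, mul_zero, Finset.sum_comm, zero_sub, neg_eq_zero]
        refine Finset.sum_eq_zero fun ω _ => ?_
        obtain ⟨b, hb, hlb⟩ := hl l hl1 hinv ω
        set T := ∑ m : M, g ω m * (((l m)⁻¹ : ℂˣ) : ℂ) with hT
        have h2 : T = T * (((l b)⁻¹ : ℂˣ) : ℂ) := by
          conv_lhs => rw [hT, ← Equiv.sum_comp (Equiv.mulRight b)]
          rw [hT, Finset.sum_mul]
          refine Finset.sum_congr rfl fun m _ => ?_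
          rw [Equiv.coe_mulRight, hg ω b hb, map_mul, mul_inv, Units.val_mul, mul_assoc]
        have h3 : (((l b)⁻¹ : ℂˣ) : ℂ) ≠ 1 := by
          intro h
          apply hlb
          rw [← inv_eq_one, ← Units.val_eq_one]; exact h
        have h4 : T * (1 - (((l b)⁻¹ : ℂˣ) : ℂ)) = 0 := by
          rw [mul_sub, mul_one, ← h2, sub_self]
        rcases mul_eq_zero.mp h4 with h5 | h5
        · exact h5
        · exact absurd (sub_eq_zero.mp h5).symm h3
      · push Not at hinv
        obtain ⟨m, m', hmm, hlm⟩ := hinv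
        refine coset_zero' hθ.conj _ (l.comp e.symm.toMonoidHom) (m := e m) (m' := e m') hmm ?_
        change l (e.symm (e m')) ≠ l (e.symm (e m))
        rwa [e.symm_apply_apply, e.symm_apply_apply]
    rw [← key, ← e.toEquiv.sum_comp]
    refine Finset.sum_congr rfl fun m _ => ?_
    have e1 : (l.comp e.symm.toMonoidHom) (e.toEquiv m) = l m := by
      change l (e.symm (e m)) = l m
      rw [e.symm_apply_apply]
    rw [e1]
    rfl
  -- Fourier inversion
  have hM : (Nat.card M : ℂ) ≠ 0 := by exact_mod_cast Nat.card_pos.ne'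
  set av : ℂ := (Nat.card M : ℂ)⁻¹ * ∑ m : M, θ (ν m * x) with hav
  have h0 : ∀ m : M, θ (ν m * x) - av = 0 := by
    refine zero_of_coeff (fun a b => mul_comm a b) (fun m => θ (ν m * x) - av) (fun l => ?_)
    rw [finsum_eq_sum_of_fintype]
    simp only [sub_mul]
    rw [Finset.sum_sub_distrib, ← Finset.mul_sum]
    by_cases hl1 : l = 1
    · subst hl1
      simp only [MonoidHom.one_apply, inv_one, Units.val_one, mul_one]
      rw [Finset.sum_const, Finset.card_univ, nsmul_eq_mul, mul_one, hav,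
        ← Nat.card_eq_fintype_card]
      field_simp
      ring
    · rw [hcoef l hl1, sum_inv_char l hl1, mul_zero, sub_zero]
  have h1 := sub_eq_zero.mp (h0 m)
  have h2 := sub_eq_zero.mp (h0 1)
  rw [map_one, one_mul] at h2
  rw [h1, h2]

/-- The sum over the group generated by `x` and an abelian group normalized by `x` is
nonnegative. -/
theorem sum_nat (hθ : IsHeilbronn θ) {M : Type v} [CommGroup M] [Fintype M] (ν : M →* G)
    (hν : Function.Injective ν) {x : G} (hx : ∀ m, ∃ m', x * ν m * x⁻¹ = ν m') :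
    ∃ c : ℕ, ∑ᶠ h : Subgroup.zpowers x, ∑ m : M, θ (ν m * h) = c := by
  classical
  set N := ν.range with hN
  have hxN : ∀ n ∈ N, x * n * x⁻¹ ∈ N := by
    rintro _ ⟨m, rfl⟩
    obtain ⟨m', hm'⟩ := hx m
    exact ⟨m', hm'.symm⟩
  set E := Subgroup.normalizer (N : Set G) with hE
  have hNE : N ≤ E := Subgroup.le_normalizer
  have hxE : x ∈ E := mem_normalizer_of N hxN
  have hn : (N.subgroupOf E).Normal := Subgroup.normal_in_normalizer
  obtain ⟨c, hc⟩ := isotypic_nat (hθ.comp E.subtype) (N.subgroupOf E)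
    ((Subgroup.zpowers x).subgroupOf E) 1
  refine ⟨c, ?_⟩
  rw [← hc]
  have hZE : Subgroup.zpowers x ≤ E := by
    rw [Subgroup.zpowers_le]; exact hxE
  let e := (Subgroup.subgroupOfEquivOfLe hZE).toEquiv
  let e' : M ≃ N.subgroupOf E :=
    (ν.ofInjective hν).toEquiv.trans (Subgroup.subgroupOfEquivOfLe hNE).symm.toEquiv
  have : Fintype (N.subgroupOf E) := Fintype.ofFinite _
  refine (finsum_eq_of_bijective e e.bijective fun h => ?_).symm
  rw [finsum_eq_sum_of_fintype, ← e'.sum_comp]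
  refine Finset.sum_congr rfl fun m _ => ?_
  simp only [MonoidHom.one_apply, inv_one, Units.val_one, mul_one]
  rfl

end Pool.Agent.U93
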