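import Mathlib
import Pool.Agent.U93.Ker
import Pool.Agent.U93.Lem

/-!
# Semiregular permutations of odd order
-/

set_option autoImplicit false
set_option linter.unusedSectionVars false

namespace Pool.Agent.U93

open Equiv Equiv.Perm Pool.Agent.H302R2

section struct

variable {α : Type*}

/-- all cycles of `g` have length `l` -/
def Semi (l : ℕ) (g : Perm α) : Prop := g ^ l = 1 ∧ ∀ k, 0 < k → k < l → ∀ x, (g ^ k) x ≠ x

/-- coordinates for a semiregular permutation -/
lemma Semi.coord [Finite α] {l : ℕ} (hl : 0 < l) {g : Perm α} (hg : Semi l g) :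
    ∃ (b : ℕ) (e : Fin b × ZMod l ≃ α), ∀ i x, g (e (i, x)) = e (i, x + 1) := by
  classical
  have : NeZero l := ⟨hl.ne'⟩
  let J := Quotient (SameCycle.setoid g)
  have : Finite J := inferInstance
  have : Fintype J := Fintype.ofFinite J
  let o : J → α := fun j => Quotient.out j
  let E : J × ZMod l → α := fun q => (g ^ q.2.val) (o q.1)
  have hinj : Function.Injective E := by
    rintro ⟨j, x⟩ ⟨j', x'⟩ h
    simp only [E] at h
    have hj : j = j' := by
      have h1 : SameCycle g (o j) (o j') := by
        refine ⟨(x.val : ℤ) - x'.val, ?_⟩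
        rw [sub_eq_neg_add, zpow_add, Perm.mul_apply, zpow_natCast, h, zpow_neg, zpow_natCast,
          perm_inv_mul_apply]
      have h2 : (Quotient.mk (SameCycle.setoid g) (o j)) = Quotient.mk _ (o j') := Quotient.sound h1
      simpa [o] using h2
    subst hj
    have hx : x.val = x'.val := by
      have aux : ∀ a b : ℕ, a ≤ b → b < l → (g ^ a) (o j) = (g ^ b) (o j) → a = b := by
        intro a b hab hb h
        by_contra hne
        refine hg.2 (b - a) (by omega) (by omega) (o j) ?_
        have h3 : g ^ b = g ^ a * g ^ (b - a) := by rw [← pow_add]; congr 1; omega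
        rw [h3, Perm.mul_apply] at h
        exact ((g ^ a).injective h).symm
      rcases le_total x.val x'.val with h1 | h1
      · exact aux _ _ h1 (ZMod.val_lt x') h
      · exact (aux _ _ h1 (ZMod.val_lt x) h.symm).symm
    rw [ZMod.val_injective l hx]
  have hsurj : Function.Surjective E := by
    intro z
    have h1 : SameCycle g (o (Quotient.mk (SameCycle.setoid g) z)) z :=
      Quotient.mk_out (s := SameCycle.setoid g) z
    obtain ⟨i, hi⟩ := h1
    refine ⟨(Quotient.mk (SameCycle.setoid g) z, (i : ZMod l)), ?_⟩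
    have h2 : g ^ ((i : ZMod l).val) = g ^ i := by
      rw [← zpow_natCast, ZMod.val_intCast]
      conv_rhs => rw [← Int.emod_add_mul_ediv i l, zpow_add, zpow_mul, zpow_natCast, hg.1, one_zpow,
        mul_one]
    simp only [E]
    rw [h2]
    exact hi
  have hE : ∀ j x, g (E (j, x)) = E (j, x + 1) := by
    intro j x
    simp only [E]
    rw [← Perm.mul_apply, ← pow_succ', ZMod.val_add, pow_eq_pow_mod (x.val + 1) hg.1]
    congr 2
    rw [Nat.add_mod x.val (ZMod.val 1) l, Nat.add_mod x.val 1 l]
    congr 2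
    rcases Nat.lt_or_ge 1 l with h | h
    · have : Fact (1 < l) := ⟨h⟩
      rw [ZMod.val_one]
    · have : l = 1 := by omega
      subst this
      simp [Nat.mod_one]
  refine ⟨Fintype.card J, ((Fintype.equivFin J).symm.prodCongr (Equiv.refl _)).trans
    (Equiv.ofBijective E ⟨hinj, hsurj⟩), fun i x => ?_⟩
  exact hE _ _

end struct

section value

variable {n : ℕ} {θ : alternatingGroup (Fin n) → ℂ}

/-- The values on the translations of blocks of odd prime size. -/
theorem prime_value (hn : 8 ≤ n) (hθ : IsHeilbronn θ) (hD : ¬ HasDoubleSwaps θ) {r : ℕ}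
    (hr : θ 1 = r) (hrn : r + 2 ≤ n) {p b : ℕ} [hp : Fact p.Prime] (hodd : Odd p) (hb : 2 ≤ b)
    (hbp : b * p = n) (hF : 3 ≤ Fintype.card (ZMod p)) (f : Fin b × ZMod p ↪ Fin n)
    (a : Fin b → ZMod p) :
    θ (bh hF f (Multiplicative.ofAdd a)) = r - (p : ℂ) * wt a := by
  have hp3 : 3 ≤ p := by rwa [ZMod.card] at hF
  have key := block_dich hθ hF hb f hr (by
    rw [ZMod.card]
    obtain ⟨q, rfl⟩ := Nat.exists_eq_add_of_le hp3
    have : 3 + q - 1 = q + 2 := by omega
    rw [this]
    nlinarith) (by
    rw [ZMod.card]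
    obtain ⟨q, rfl⟩ := Nat.exists_eq_add_of_le hp3
    obtain ⟨c, rfl⟩ := Nat.exists_eq_add_of_le hb
    have h1 : 3 + q - 1 = q + 2 := by omega
    have h2 : 2 + c - 1 = c + 1 := by omega
    rw [h1, h2]
    -- `(c + 2) (q + 3) - 2 < (q + 2) ^ 2 (c + 1)` unless `q = c = 0`
    have h3 : q ≠ 0 ∨ c ≠ 0 := by
      by_contra hcon
      push Not at hcon
      obtain ⟨rfl, rfl⟩ := hcon
      omega
    have h4 : 1 ≤ q + c := by omega
    nlinarith [Nat.zero_le (q * c), Nat.zero_le (q * q * c), Nat.zero_le (q * q)])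
  rcases key with key | key
  · exact absurd (ker_prime hθ hodd hb hF f key) hD
  · rw [key a, ZMod.card]

lemma trans_coset (hθ : IsHeilbronn θ) {r : ℕ} {p m : ℕ} [hp : Fact p.Prime]
    (hF : 3 ≤ Fintype.card (ZMod p)) (f : Fin m × ZMod p ↪ Fin n)
    (hval : ∀ a : Fin m → ZMod p, θ (bh hF f (Multiplicative.ofAdd a)) = r - (p : ℂ) * wt a)
    (ρ : Perm (Fin m)) (hρ : ∀ i, ρ i ≠ i)
    (hs : viaEmbeddingHom f (sh (ZMod p) ρ) ∈ alternatingGroup (Fin n)) (c : Fin m → ZMod p) :
    V θ (viaEmbeddingHom f (Pool.Agent.H302R2.trans m (ZMod p) (Multiplicative.ofAdd c))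
      * viaEmbeddingHom f (sh (ZMod p) ρ)) = V θ (viaEmbeddingHom f (sh (ZMod p) ρ)) := by
  classical
  set x : alternatingGroup (Fin n) := ⟨_, hs⟩ with hx
  have hconj : ∀ a : Fin m → ZMod p, x * bh hF f (Multiplicative.ofAdd a) * x⁻¹
      = bh hF f (Multiplicative.ofAdd (fun i => a (ρ⁻¹ i))) := by
    intro a
    apply Subtype.ext
    rw [Subgroup.coe_mul, Subgroup.coe_mul, Subgroup.coe_inv, bh_coe, bh_coe]
    change viaEmbeddingHom f (sh (ZMod p) ρ) * viaEmbeddingHom f _ *
      (viaEmbeddingHom f (sh (ZMod p) ρ))⁻¹ = _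
    rw [← map_inv, ← map_mul, ← map_mul]
    congr 1
    exact sh_conj ρ a
  have hinj : Function.Injective (bh hF f : Multiplicative (Fin m → ZMod p) → _) := by
    intro a b h
    have h1 := congrArg (fun g : alternatingGroup (Fin n) => (g : Perm (Fin n))) h
    simp only [bh_coe] at h1
    have h2 := viaEmbeddingHom_injective f h1
    apply Multiplicative.toAdd.injective
    ext i
    have h3 := congrArg (fun π : Perm (Fin m × ZMod p) => (π (i, 0)).2) h2
    simpa [Pool.Agent.H302R2.trans] using h3
  have key := coset_const hθ (bh hF f) hinj (x := x) (fun m => ⟨_, hconj (Multiplicative.toAdd m)⟩)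
    (Ω := Fin m) (fun ω =>
      { carrier := {a | Multiplicative.toAdd a ω = 0}
        one_mem' := rfl
        mul_mem' := by
          intro a b ha hb
          change Multiplicative.toAdd a ω + Multiplicative.toAdd b ω = 0
          rw [Set.mem_ofPred_eq] at ha hb
          rw [ha, hb, add_zero]
        inv_mem' := by
          intro a ha
          change -(Multiplicative.toAdd a ω) = 0
          rw [Set.mem_ofPred_eq] at ha
          rw [ha, neg_zero] })
    (fun ω a => if Multiplicative.toAdd a ω ≠ 0 then (p : ℂ) else 0) (r : ℂ) ?_ ?_ ?_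
    (Multiplicative.ofAdd c)
  · exact ((V_coe (θ := θ) (bh hF f (Multiplicative.ofAdd c) * x)).trans key).trans
      (V_coe (θ := θ) x).symm
  · intro ω b hb a
    have hb' : Multiplicative.toAdd b ω = 0 := hb
    rw [toAdd_mul, Pi.add_apply, hb', add_zero]
  · intro a
    have h1 := hval (Multiplicative.toAdd a)
    rw [ofAdd_toAdd] at h1
    rw [h1, wt, Finset.sum_ite, Finset.sum_const_zero, add_zero, Finset.sum_const, nsmul_eq_mul,
      mul_comm]
  · intro l hl hinv ω
    obtain ⟨a, ha⟩ : ∃ a, l a ≠ 1 := by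
      by_contra hcon
      push Not at hcon
      exact hl (MonoidHom.ext hcon)
    obtain ⟨i, t, hit⟩ : ∃ (i : Fin m) (t : ZMod p), l (Multiplicative.ofAdd (Pi.single i t)) ≠ 1 := by
      by_contra hcon
      push Not at hcon
      apply ha
      have h1 : a = ∏ i, Multiplicative.ofAdd (Pi.single i (Multiplicative.toAdd a i)) := by
        rw [← ofAdd_sum, Finset.univ_sum_single]
        rfl
      rw [h1, map_prod]
      exact Finset.prod_eq_one fun i _ => hcon i _
    by_cases hiω : i = ω
    · refine ⟨Multiplicative.ofAdd (Pi.single (ρ i) t), ?_, ?_⟩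
      · change (Pi.single (ρ i) t : Fin m → ZMod p) ω = 0
        rw [Pi.single_eq_of_ne]
        rw [← hiω]
        exact (hρ i).symm
      · rw [hinv (Multiplicative.ofAdd (Pi.single i t)) _ ?_]
        · exact hit
        · rw [hconj]
          congr 2
          ext j
          rw [Pi.single_apply, Pi.single_apply]
          simp only [Perm.inv_eq_iff_eq]
    · refine ⟨Multiplicative.ofAdd (Pi.single i t), ?_, hit⟩
      change (Pi.single i t : Fin m → ZMod p) ω = 0
      rw [Pi.single_eq_of_ne (fun h => hiω h.symm)]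

end value

end Pool.Agent.U93
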