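import Mathlib
import Pool.Agent.U93.SemiV
import Pool.Agent.H302R5.Push
import Pool.Agent.H302R2.SymFinal

/-!
# Heilbronn functions of degree at most `n - 2` on the alternating group of degree `n`
-/

set_option autoImplicit false
set_option linter.unusedSectionVars false

namespace Pool.Agent.U93

open Equiv Equiv.Perm Pool.Agent.H302R2

section support

variable {α : Type*} [Fintype α] [DecidableEq α]
variable {Ω A : Type*} [Fintype Ω] [DecidableEq Ω] [AddCommGroup A] [Fintype A] [DecidableEq A]

lemma card_support_tr (f : Ω × A ↪ α) (a : Ω → A) :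
    (viaEmbeddingHom f (tr Ω A (Multiplicative.ofAdd a))).support.card
      = Fintype.card A * (Finset.univ.filter fun i => a i ≠ 0).card := by
  classical
  have h1 : (viaEmbeddingHom f (tr Ω A (Multiplicative.ofAdd a))).support
      = ((Finset.univ.filter fun i => a i ≠ 0) ×ˢ (Finset.univ : Finset A)).map f := by
    ext x
    rw [mem_support, Finset.mem_map]
    constructor
    · intro hx
      by_cases hex : ∃ p, f p = x
      · obtain ⟨⟨i, u⟩, rfl⟩ := hex
        refine ⟨(i, u), ?_, rfl⟩
        rw [Finset.mem_product, Finset.mem_filter]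
        refine ⟨⟨Finset.mem_univ _, fun h => ?_⟩, Finset.mem_univ _⟩
        apply hx
        rw [viaEmb_apply]
        congr 1
        simp only at h
        simp [tr_apply, h]
      · push Not at hex
        exact absurd (viaEmb_notMem f _ hex) hx
    · rintro ⟨⟨i, u⟩, hp, rfl⟩ h
      rw [Finset.mem_product, Finset.mem_filter] at hp
      rw [viaEmb_apply] at h
      have h2 := f.injective h
      simp [tr_apply] at h2
      exact hp.1.2 h2
  rw [h1, Finset.card_map, Finset.card_product, Finset.card_univ, mul_comm]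

noncomputable instance instM0 : Fintype (M0 Ω A) := Fintype.ofFinite _

/-- the evaluation at a block -/
def ev (Ω A : Type*) [Fintype Ω] [AddCommGroup A] (ω : Ω) :
    Multiplicative (M0 Ω A) →* Multiplicative A where
  toFun a := Multiplicative.ofAdd (((Multiplicative.toAdd a : M0 Ω A) : Ω → A) ω)
  map_one' := rfl
  map_mul' _ _ := rfl

lemma ev_surj {ω ω' : Ω} (h : ω ≠ ω') : Function.Surjective (ev Ω A ω) := by
  intro t
  refine ⟨Multiplicative.ofAdd ⟨Pi.single ω (Multiplicative.toAdd t)
    - Pi.single ω' (Multiplicative.toAdd t), ?_⟩, ?_⟩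
  · rw [mem_M0]
    simp
  · change Multiplicative.ofAdd ((Pi.single ω (Multiplicative.toAdd t)
      - Pi.single ω' (Multiplicative.toAdd t) : Ω → A) ω) = t
    rw [Pi.sub_apply, Pi.single_eq_same, Pi.single_eq_of_ne h, sub_zero]
    rfl

/-- the mean number of moved points -/
lemma sum_wt (h2 : ∀ ω : Ω, ∃ ω', ω ≠ ω') :
    (Fintype.card A : ℂ) * ∑ a : Multiplicative (M0 Ω A),
      ((Finset.univ.filter fun i => ((Multiplicative.toAdd a : M0 Ω A) : Ω → A) i ≠ 0).card : ℂ)
      = Fintype.card (Multiplicative (M0 Ω A)) * ((Fintype.card A - 1) * Fintype.card Ω) := by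
  classical
  have h1 : ∀ a : Multiplicative (M0 Ω A),
      ((Finset.univ.filter fun i => ((Multiplicative.toAdd a : M0 Ω A) : Ω → A) i ≠ 0).card : ℂ)
      = ∑ i : Ω, if ev Ω A i a ≠ 1 then (1 : ℂ) else 0 := by
    intro a
    rw [Finset.card_filter]
    push_cast
    rfl
  rw [Finset.sum_congr rfl (fun a _ => h1 a), Finset.sum_comm, Finset.mul_sum]
  have h3 : ∀ i : Ω, (Fintype.card A : ℂ) * ∑ a : Multiplicative (M0 Ω A),
      (if ev Ω A i a ≠ 1 then (1 : ℂ) else 0)
      = Fintype.card (Multiplicative (M0 Ω A)) * (Fintype.card A - 1) := by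
    intro i
    obtain ⟨i', hi'⟩ := h2 i
    have h4 := Pool.Agent.H302R5.card_eq_ker_mul (ev_surj (A := A) hi')
    have h5 : (Finset.univ.filter fun a : Multiplicative (M0 Ω A) => ev Ω A i a = 1).card
        = Nat.card (ev Ω A i).ker := by
      rw [← Fintype.card_subtype, ← Nat.card_eq_fintype_card]
      rfl
    have h6 := Finset.card_filter_add_card_filter_not
      (s := (Finset.univ : Finset (Multiplicative (M0 Ω A)))) (fun a => ev Ω A i a = 1)
    rw [Finset.card_univ] at h6
    rw [← Finset.sum_filter, Finset.sum_const, nsmul_eq_mul, mul_one]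
    have h7 : Nat.card (Multiplicative A) = Fintype.card A := by
      rw [Nat.card_eq_fintype_card, Fintype.card_multiplicative]
    rw [h7, Nat.card_eq_fintype_card, ← h5] at h4
    have h8 : ((Finset.univ.filter fun a : Multiplicative (M0 Ω A) => ¬ ev Ω A i a = 1).card : ℂ)
        = Fintype.card (Multiplicative (M0 Ω A))
          - (Finset.univ.filter fun a : Multiplicative (M0 Ω A) => ev Ω A i a = 1).card := by
      rw [eq_sub_iff_add_eq, add_comm]
      exact_mod_cast h6
    have h9 : (Fintype.card (Multiplicative (M0 Ω A)) : ℂ)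
        = (Finset.univ.filter fun a : Multiplicative (M0 Ω A) => ev Ω A i a = 1).card
          * Fintype.card A := by
      exact_mod_cast h4
    rw [h8, mul_sub, mul_sub, mul_one]
    rw [mul_comm (Fintype.card A : ℂ)
      ((Finset.univ.filter fun a : Multiplicative (M0 Ω A) => ev Ω A i a = 1).card : ℂ), ← h9]
    ring
  rw [Finset.sum_congr rfl (fun i _ => h3 i), Finset.sum_const, Finset.card_univ, nsmul_eq_mul]
  ring

end support

section main

variable {n : ℕ} {θ : alternatingGroup (Fin n) → ℂ}

lemma addRight_pow {m : ℕ} (k : ℕ) (u : ZMod m) :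
    ((Equiv.addRight (1 : ZMod m)) ^ k) u = u + k := by
  induction k generalizing u with
  | zero => simp
  | succ k ih =>
    rw [pow_succ', Perm.mul_apply, ih]
    simp only [coe_addRight, Nat.cast_add, Nat.cast_one]
    ring

/-- the coset of the translations with sum zero -/
lemma nu_coset (hθ : IsHeilbronn θ) {r m : ℕ} [NeZero m] {A : Type} [AddCommGroup A] [Fintype A]
    [DecidableEq A] (f : ZMod m × A ↪ Fin n)
    (hval : ∀ a : Multiplicative (M0 (ZMod m) A), θ (nu f a) = r - (Fintype.card A : ℂ) *
      (Finset.univ.filter fun i => ((Multiplicative.toAdd a : M0 (ZMod m) A) : ZMod m → A) i ≠ 0).card)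
    (j : ℕ) (hj1 : (j : ZMod m) ≠ 0) (hj2 : ((2 * j : ℕ) : ZMod m) ≠ 0)
    (hs : Perm.sign (sh A (Equiv.addRight (1 : ZMod m) ^ j)) = 1)
    (a : Multiplicative (M0 (ZMod m) A)) :
    θ (nu f a * xs f (Equiv.addRight (1 : ZMod m) ^ j) hs)
      = θ (xs f (Equiv.addRight (1 : ZMod m) ^ j) hs) := by
  classical
  set ρ : Perm (ZMod m) := Equiv.addRight (1 : ZMod m) ^ j with hρ
  have hρa : ∀ u, ρ u = u + j := fun u => addRight_pow j u
  have hρi : ∀ u, ρ⁻¹ u = u - j := by
    intro u
    rw [Perm.inv_eq_iff_eq, hρa]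
    ring
  refine coset_const hθ (nu f) (nu_inj f) (x := xs f ρ hs)
    (fun b => ⟨_, xs_conj f ρ hs (Multiplicative.toAdd b)⟩) (Ω := ZMod m)
    (fun ω => (ev (ZMod m) A ω).ker)
    (fun ω b => if ((Multiplicative.toAdd b : M0 (ZMod m) A) : ZMod m → A) ω ≠ 0
      then (Fintype.card A : ℂ) else 0) (r : ℂ) ?_ ?_ ?_ a
  · intro ω b hb c
    have hb' : ((Multiplicative.toAdd b : M0 (ZMod m) A) : ZMod m → A) ω = 0 := hb
    rw [toAdd_mul, AddSubgroup.coe_add, Pi.add_apply, hb', add_zero]
  · intro b
    rw [hval b, Finset.sum_ite, Finset.sum_const_zero, add_zero, Finset.sum_const, nsmul_eq_mul,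
      mul_comm]
  · intro l hl hinv ω
    -- the generators
    let s : ZMod m → A → M0 (ZMod m) A := fun i t => ⟨Pi.single i t - Pi.single 0 t, by
      rw [mem_M0]; simp⟩
    obtain ⟨i, t, hit⟩ : ∃ (i : ZMod m) (t : A), l (Multiplicative.ofAdd (s i t)) ≠ 1 := by
      by_contra hcon
      push Not at hcon
      apply hl
      refine MonoidHom.ext fun b => ?_
      have h1 : b = ∏ i, Multiplicative.ofAdd
          (s i (((Multiplicative.toAdd b : M0 (ZMod m) A) : ZMod m → A) i)) := by
        apply Multiplicative.toAdd.injective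
        apply Subtype.ext
        rw [← ofAdd_sum, toAdd_ofAdd, AddSubgroup.val_finsetSum]
        simp only [s]
        rw [Finset.sum_sub_distrib, Finset.univ_sum_single]
        have h2 : ∑ i, Pi.single (M := fun _ : ZMod m => A) 0
            (((Multiplicative.toAdd b : M0 (ZMod m) A) : ZMod m → A) i) = 0 := by
          ext u
          rw [Finset.sum_apply]
          by_cases hu : u = 0
          · subst hu
            simp only [Pi.single_eq_same, Pi.zero_apply]
            exact (Multiplicative.toAdd b).2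
          · simp only [Pi.single_eq_of_ne hu, Finset.sum_const_zero, Pi.zero_apply]
        rw [h2, sub_zero]
      rw [h1, map_prod, MonoidHom.one_apply]
      exact Finset.prod_eq_one fun i _ => hcon i _
    -- the shifts of the generator
    let T : ℕ → M0 (ZMod m) A := fun c => ⟨Pi.single (i + c * j) t - Pi.single (c * j : ZMod m) t, by
      rw [mem_M0]; simp⟩
    have hT0 : l (Multiplicative.ofAdd (T 0)) ≠ 1 := by
      have : T 0 = s i t := by
        apply Subtype.ext
        simp [T, s]
      rwa [this]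
    have hTs : ∀ c, l (Multiplicative.ofAdd (T (c + 1))) = l (Multiplicative.ofAdd (T c)) := by
      intro c
      apply hinv
      rw [xs_conj]
      congr 2
      apply Subtype.ext
      ext u
      simp only [T, Pi.sub_apply, hρi, Pi.single_apply]
      have e1 : (u - (j : ZMod m) = i + c * j) = (u = i + ((c + 1 : ℕ) : ZMod m) * j) := by
        rw [sub_eq_iff_eq_add]
        push_cast
        congr 1
        ring
      have e2 : (u - (j : ZMod m) = c * j) = (u = ((c + 1 : ℕ) : ZMod m) * j) := by
        rw [sub_eq_iff_eq_add]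
        push_cast
        congr 1
        ring
      simp only [e1, e2]
    have hTc : ∀ c, l (Multiplicative.ofAdd (T c)) ≠ 1 := by
      intro c
      induction c with
      | zero => exact hT0
      | succ c ih => rw [hTs]; exact ih
    obtain ⟨c, hc1, hc2⟩ : ∃ c : ℕ, ω ≠ i + c * j ∧ ω ≠ c * j := by
      by_contra hcon
      push Not at hcon
      have a0 := hcon 0
      have a1 := hcon 1
      have a2 := hcon 2
      push_cast at a0 a1 a2 hj2
      by_cases b0 : ω = i + 0 * j
      · -- then `c = 1, 2` must both come from the second alternative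
        have c1 : ω ≠ i + 1 * j := by
          intro h
          apply hj1
          have h5 : i + 0 * (j : ZMod m) = i + 1 * j := b0 ▸ h
          linear_combination -h5
        have c2 : ω ≠ i + 2 * j := by
          intro h
          apply hj2
          have h5 : i + 0 * (j : ZMod m) = i + 2 * j := b0 ▸ h
          linear_combination -h5
        have d1 := a1 c1
        have d2 := a2 c2
        apply hj1
        have h5 : (1 : ZMod m) * j = 2 * j := d1 ▸ d2
        linear_combination -h5
      · have d0 := a0 b0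
        by_cases b1 : ω = i + 1 * j
        · have c2 : ω ≠ i + 2 * j := by
            intro h
            apply hj1
            have h5 : i + 1 * (j : ZMod m) = i + 2 * j := b1 ▸ h
            linear_combination -h5
          have d2 := a2 c2
          apply hj2
          have h5 : (0 : ZMod m) * j = 2 * j := d0 ▸ d2
          linear_combination -h5
        · have d1 := a1 b1
          apply hj1
          have h5 : (0 : ZMod m) * j = 1 * j := d0 ▸ d1
          linear_combination -h5
    refine ⟨Multiplicative.ofAdd (T c), ?_, hTc c⟩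
    change Multiplicative.ofAdd ((Pi.single (i + c * j) t - Pi.single (c * j : ZMod m) t :
      ZMod m → A) ω) = 1
    rw [Pi.sub_apply, Pi.single_eq_of_ne hc1, Pi.single_eq_of_ne hc2, sub_zero]
    rfl

lemma semi_shift {m : ℕ} [NeZero m] {A : Type} [AddCommGroup A] (f : ZMod m × A ≃ Fin n)
    {j : ℕ} (hj : ¬ m ∣ j) :
    1 < m / Nat.gcd m j ∧ m / Nat.gcd m j ∣ m ∧
      Semi (m / Nat.gcd m j)
        (viaEmbeddingHom f.toEmbedding (sh A (Equiv.addRight (1 : ZMod m) ^ j))) := by
  have hm : 0 < m := NeZero.pos m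
  have hg : 0 < Nat.gcd m j := Nat.gcd_pos_of_pos_left _ hm
  have hdvd : m / Nat.gcd m j ∣ m := Nat.div_dvd_of_dvd (Nat.gcd_dvd_left m j)
  have hl0 : m / Nat.gcd m j ≠ 0 := by
    intro h
    rw [h] at hdvd
    exact hm.ne' (Nat.eq_zero_of_zero_dvd hdvd)
  have hl1 : m / Nat.gcd m j ≠ 1 := by
    intro h
    apply hj
    have h1 : m = Nat.gcd m j := by
      have := Nat.div_mul_cancel (Nat.gcd_dvd_left m j)
      rw [h, one_mul] at this
      exact this.symm
    rw [h1]
    exact Nat.gcd_dvd_right m j
  have key : ∀ t : ℕ, m ∣ j * t ↔ m / Nat.gcd m j ∣ t := by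
    intro t
    constructor
    · intro h
      have h1 : m / Nat.gcd m j ∣ (j / Nat.gcd m j) * t := by
        rw [← Nat.mul_dvd_mul_iff_right hg]
        rw [Nat.div_mul_cancel (Nat.gcd_dvd_left m j), mul_right_comm,
          Nat.div_mul_cancel (Nat.gcd_dvd_right m j)]
        exact h
      exact (Nat.coprime_div_gcd_div_gcd hg).dvd_of_dvd_mul_left h1
    · intro h
      have h1 : (m / Nat.gcd m j) * Nat.gcd m j ∣ t * j := Nat.mul_dvd_mul h (Nat.gcd_dvd_right m j)
      rwa [Nat.div_mul_cancel (Nat.gcd_dvd_left m j), mul_comm] at h1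
  refine ⟨Nat.one_lt_iff_ne_zero_and_ne_one.mpr ⟨hl0, hl1⟩, hdvd, ?_, ?_⟩
  · rw [← map_pow, sh_pow, ← pow_mul]
    have h1 : (Equiv.addRight (1 : ZMod m)) ^ (j * (m / Nat.gcd m j)) = 1 := by
      ext1 u
      rw [addRight_pow, (ZMod.natCast_eq_zero_iff _ _).mpr ((key _).mpr dvd_rfl), add_zero]
      rfl
    rw [h1, sh_one, map_one]
  · intro t ht0 htl x
    obtain ⟨⟨u, a⟩, rfl⟩ := f.surjective x
    rw [← map_pow, sh_pow, ← pow_mul]
    intro h
    have h0 : f (u, a) = f.toEmbedding (u, a) := rfl
    rw [h0, viaEmb_apply, sh_apply] at h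
    have h1 := f.injective h
    simp only [Prod.mk.injEq, and_true] at h1
    rw [addRight_pow, add_eq_left, ZMod.natCast_eq_zero_iff, key] at h1
    exact absurd (Nat.le_of_dvd ht0 h1) (by omega)

/-- **The sharp bound.** If `n ≥ 8` is not prime, then every Heilbronn function of degree at most
`n - 2` on the alternating group of degree `n` is constant. -/
theorem alt_sharp (hn : 8 ≤ n) (hnp : ¬ n.Prime) (hθ : IsHeilbronn θ) {r : ℕ} (hr : θ 1 = r)
    (hrn : r + 2 ≤ n) (g : alternatingGroup (Fin n)) : θ g = θ 1 := by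
  classical
  by_contra hne
  have hD : ¬ HasDoubleSwaps θ := by
    intro hD
    apply hne
    obtain ⟨h1, h2⟩ := InK.all hθ hD (by rw [Fintype.card_fin]; omega)
      (g := (g : Perm (Fin n))) (mem_alternatingGroup.mp g.2)
    exact h2
  obtain ⟨k, m, hm2, hkm⟩ := Nat.exists_eq_pow_mul_and_not_dvd (n := n) (by omega) 2 (by norm_num)
  have hmodd : Odd m := by
    rw [← Nat.not_even_iff_odd, even_iff_two_dvd]; exact hm2
  have hpow : 0 < 2 ^ k := by positivity
  by_cases hm1 : m = 1
  · -- a power of two
    rw [hm1, mul_one] at hkm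
    have hk : 2 ≤ k := by
      by_contra hcon
      have : k = 0 ∨ k = 1 := by omega
      rcases this with rfl | rfl <;> norm_num at hkm <;> omega
    apply hne
    refine alt_core (by omega) hk hθ hr ?_ g
    rw [← hkm, Nat.div_self (by omega)]
    omega
  have hm3 : 3 ≤ m := by
    obtain ⟨c, hc⟩ := hmodd
    omega
  have : NeZero m := ⟨by omega⟩
  let A : Type := Fin k → ZMod 2
  have hA : Fintype.card A = 2 ^ k := by simp [A]
  obtain ⟨f⟩ : Nonempty (ZMod m × A ≃ Fin n) := by
    rw [← Fintype.card_eq, Fintype.card_prod, ZMod.card, hA, Fintype.card_fin, hkm, mul_comm]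
  have hval : ∀ a : Multiplicative (M0 (ZMod m) A), θ (nu f.toEmbedding a)
      = r - (Fintype.card A : ℂ) * (Finset.univ.filter fun i =>
        ((Multiplicative.toAdd a : M0 (ZMod m) A) : ZMod m → A) i ≠ 0).card := by
    intro a
    by_cases hk0 : k = 0
    · subst hk0
      have h1 : ∀ b : A, b = 0 := fun b => Subsingleton.elim _ _
      have h2 : a = 1 := by
        apply Multiplicative.toAdd.injective
        apply Subtype.ext
        ext1 i
        exact (h1 _).trans (h1 _).symm
      rw [Finset.filter_false_of_mem (fun i _ => not_not.mpr (h1 _)), Finset.card_empty, h2,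
        map_one, hr]
      simp
    · have heven : Even n := by
        rw [hkm]
        exact (Nat.even_pow.mpr ⟨even_two, hk0⟩).mul_right m
      have h1 := inv_value hn hθ hD hr hrn heven (z := ((nu f.toEmbedding a :
        alternatingGroup (Fin n)) : Perm (Fin n))) (by
          rw [nu_coe, ← map_mul, ← map_mul, ← ofAdd_add]
          have : ((Multiplicative.toAdd a : M0 (ZMod m) A) : ZMod m → A)
              + ((Multiplicative.toAdd a : M0 (ZMod m) A) : ZMod m → A) = 0 := by
            ext i j
            simp only [Pi.add_apply, Pi.zero_apply]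
            exact CharTwo.add_self_eq_zero _
          rw [this, ofAdd_zero, map_one, map_one])
        (mem_alternatingGroup.mp (nu f.toEmbedding a).2)
      rw [V_coe, nu_coe, card_support_tr] at h1
      rw [h1]
      push_cast
      ring
  -- the shift
  have hρm : (Equiv.addRight (1 : ZMod m)) ^ m = 1 := by
    ext1 u
    rw [addRight_pow, ZMod.natCast_self, add_zero]
    rfl
  have hsj : ∀ j : ℕ, Perm.sign (sh A (Equiv.addRight (1 : ZMod m) ^ j)) = 1 := by
    intro j
    refine sign_odd_pow hmodd ?_
    rw [sh_pow, ← pow_mul, mul_comm, pow_mul, hρm, one_pow, sh_one]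
  set x : alternatingGroup (Fin n) := xs f.toEmbedding (Equiv.addRight (1 : ZMod m)) (by
    have := hsj 1
    rwa [pow_one] at this) with hx
  have hxj : ∀ j : ℕ, x ^ j = xs f.toEmbedding (Equiv.addRight (1 : ZMod m) ^ j) (hsj j) := by
    intro j
    apply Subtype.ext
    rw [hx, xs_pow]
    rfl
  have hxval : ∀ j : ℕ, ¬ m ∣ j → θ (x ^ j) = r - (n : ℂ) := by
    intro j hj
    obtain ⟨h1, h2, h3⟩ := semi_shift (A := A) f hj
    have h4 := semi_value hn hnp hθ hD hr hrn _ h1 (hmodd.of_dvd_nat h2) _ h3
    rw [← h4, hxj, ← V_coe (θ := θ)]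
    rfl
  have hM0 : (Fintype.card (Multiplicative (M0 (ZMod m) A)) : ℂ) ≠ 0 := by
    exact_mod_cast Fintype.card_ne_zero
  set N : ℂ := (Fintype.card (Multiplicative (M0 (ZMod m) A)) : ℂ) with hN
  have hsumj : ∀ j : ℕ, ¬ m ∣ j → ∑ a : Multiplicative (M0 (ZMod m) A),
      θ (nu f.toEmbedding a * x ^ j) = N * (r - n) := by
    intro j hj
    have h1 : ∀ a : Multiplicative (M0 (ZMod m) A),
        θ (nu f.toEmbedding a * x ^ j) = r - (n : ℂ) := by
      intro a
      rw [← hxval j hj, hxj]
      refine nu_coset hθ f.toEmbedding hval j ?_ ?_ (hsj j) a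
      · rw [ne_eq, ZMod.natCast_eq_zero_iff]; exact hj
      · rw [ne_eq, ZMod.natCast_eq_zero_iff]
        intro h
        apply hj
        exact (Nat.Coprime.dvd_of_dvd_mul_left (Nat.coprime_two_right.mpr hmodd) h)
    rw [Finset.sum_congr rfl (fun a _ => h1 a), Finset.sum_const, Finset.card_univ, nsmul_eq_mul]
  have hnkm : (n : ℂ) = (Fintype.card A : ℂ) * m := by
    rw [hA, hkm]; push_cast; ring
  have hsum0 : ∑ a : Multiplicative (M0 (ZMod m) A), θ (nu f.toEmbedding a) = N * (r - n + m) := by
    rw [Finset.sum_congr rfl (fun a _ => hval a), Finset.sum_sub_distrib, Finset.sum_const,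
      Finset.card_univ, nsmul_eq_mul, ← Finset.mul_sum]
    have h1 := sum_wt (Ω := ZMod m) (A := A) (fun ω => ⟨ω + 1, by
      have : Fact (1 < m) := ⟨by omega⟩
      intro h
      exact one_ne_zero (left_eq_add.mp h)⟩)
    rw [h1, ZMod.card, ← hN, hnkm]
    ring
  obtain ⟨c, hc⟩ := sum_nat hθ (nu f.toEmbedding : Multiplicative (M0 (ZMod m) A) →* _)
    (nu_inj _) (x := x) (fun a => ⟨_, xs_conj _ _ _ (Multiplicative.toAdd a)⟩)
  have hxm : x ^ m = 1 := by
    rw [hxj]
    apply Subtype.ext
    change viaEmbeddingHom f.toEmbedding (sh A (Equiv.addRight (1 : ZMod m) ^ m)) = 1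
    rw [hρm, sh_one, map_one]
  have hxne : ∀ j : ℕ, ¬ m ∣ j → x ^ j ≠ 1 := by
    intro j hj h
    have h1 := hxval j hj
    rw [h, hr] at h1
    have h2 : (n : ℂ) = 0 := by linear_combination h1
    have h3 : n = 0 := by exact_mod_cast h2
    omega
  have hord : orderOf x = m := by
    rw [orderOf_eq_iff (by omega)]
    exact ⟨hxm, fun j hj hj0 => hxne j (fun h => absurd (Nat.le_of_dvd hj0 h) (by omega))⟩
  have : Fintype (Subgroup.zpowers x) := Fintype.ofFinite _
  have hcardZ : Fintype.card (Subgroup.zpowers x) = m := by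
    rw [← Nat.card_eq_fintype_card, Nat.card_zpowers, hord]
  have hF : ∀ h : Subgroup.zpowers x, ∑ a : Multiplicative (M0 (ZMod m) A),
      θ (nu f.toEmbedding a * h) = N * (r - n) + (if h = 1 then N * m else 0) := by
    rintro ⟨h, hh⟩
    rw [← mem_powers_iff_mem_zpowers] at hh
    obtain ⟨j, rfl⟩ := hh
    by_cases hj : m ∣ j
    · have h1 : x ^ j = 1 := by
        obtain ⟨q, rfl⟩ := hj
        rw [pow_mul, hxm, one_pow]
      rw [if_pos (Subtype.ext h1)]
      have h2 : ∀ a : Multiplicative (M0 (ZMod m) A),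
          θ (nu f.toEmbedding a * x ^ j) = θ (nu f.toEmbedding a) := by
        intro a
        rw [h1, mul_one]
      refine (Finset.sum_congr rfl fun a _ => h2 a).trans ?_
      rw [hsum0]
      ring
    · rw [if_neg (fun h => hxne j hj (congrArg Subtype.val h)), add_zero]
      exact hsumj j hj
  rw [finsum_eq_sum_of_fintype, Finset.sum_congr rfl (fun h _ => hF h), Finset.sum_add_distrib,
    Finset.sum_const, Finset.card_univ, hcardZ, Finset.sum_ite_eq' Finset.univ (1 : Subgroup.zpowers x),
    if_pos (Finset.mem_univ _), nsmul_eq_mul] at hc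
  have hfin : ((Fintype.card (Multiplicative (M0 (ZMod m) A)) * m * (n - (r + 1)) + c : ℕ) : ℂ)
      = 0 := by
    push_cast [Nat.cast_sub (show r + 1 ≤ n by omega)]
    rw [← hc, ← hN]
    ring
  have hfin' : Fintype.card (Multiplicative (M0 (ZMod m) A)) * m * (n - (r + 1)) + c = 0 := by
    exact_mod_cast hfin
  have h1 : 0 < Fintype.card (Multiplicative (M0 (ZMod m) A)) := Fintype.card_pos
  have h2 : 0 < Fintype.card (Multiplicative (M0 (ZMod m) A)) * m * (n - (r + 1)) :=
    Nat.mul_pos (Nat.mul_pos h1 (by omega)) (by omega)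
  omega

end main

end Pool.Agent.U93
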